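import Pool.Agent.Run7.h198.LL.Weak

/-! Nonexistence by dilation. -/

set_option autoImplicit false

namespace Run7.h198.LL

open MeasureTheory Filter Topology
open scoped ENNReal NNReal

variable {Ω : Set E} {f g u v w : E → ℝ} {F G : E → E}

lemma integral_dil (g : E → ℝ) {t : ℝ} (ht : 0 < t) :
    ∫ x, g (t • x) = (t ^ 3)⁻¹ * ∫ x, g x := by
  rw [Measure.integral_comp_smul (volume : Measure E) g t, finrank_E, smul_eq_mul,
    abs_of_pos (by positivity)]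

lemma abs_pow5_le (a : ℝ) : |a ^ 5| ≤ a ^ 2 + a ^ 6 := by
  have h1 : a ^ 2 = |a| ^ 2 := (sq_abs a).symm
  have h2 : a ^ 6 = |a| ^ 6 := (Even.pow_abs (by decide) a).symm
  rw [h1, h2, abs_pow]
  have h0 := abs_nonneg a
  rcases le_total |a| 1 with h | h
  · have : |a| ^ 5 ≤ |a| ^ 2 := pow_le_pow_of_le_one h0 h (by norm_num)
    have : 0 ≤ |a| ^ 6 := by positivity
    linarith
  · have : |a| ^ 5 ≤ |a| ^ 6 := pow_le_pow_right₀ h (by norm_num)
    have : 0 ≤ |a| ^ 2 := by positivity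
    linarith

lemma Nice.int5 (hu : Nice u) : Integrable (fun x => u x ^ 5) (volume : Measure E) := by
  refine (hu.i2.add hu.i6).mono' (hu.aesm.pow 5) (Eventually.of_forall fun x => ?_)
  rw [Real.norm_eq_abs]
  exact abs_pow5_le (u x)

/-- pointwise: `v² u⁴ ≤ s² v⁶ + s⁻¹ u⁶` -/
lemma young24 (a b s : ℝ) (hs : 0 < s) : a ^ 2 * b ^ 4 ≤ s ^ 2 * a ^ 6 + s⁻¹ * b ^ 6 := by
  have hsi : 0 < s⁻¹ := inv_pos.2 hs
  rcases le_total (b ^ 2) (s * a ^ 2) with h | h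
  · have h1 : b ^ 4 ≤ s ^ 2 * a ^ 4 := by
      calc b ^ 4 = b ^ 2 * b ^ 2 := by ring
        _ ≤ (s * a ^ 2) * (s * a ^ 2) := mul_le_mul h h (sq_nonneg _) (by positivity)
        _ = _ := by ring
    have h2 : 0 ≤ s⁻¹ * b ^ 6 := by positivity
    calc a ^ 2 * b ^ 4 ≤ a ^ 2 * (s ^ 2 * a ^ 4) := mul_le_mul_of_nonneg_left h1 (sq_nonneg _)
      _ = s ^ 2 * a ^ 6 := by ring
      _ ≤ _ := by linarith
  · have h1 : a ^ 2 ≤ s⁻¹ * b ^ 2 := by rw [le_inv_mul_iff₀ hs]; exact h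
    have h2 : 0 ≤ s ^ 2 * a ^ 6 := by positivity
    calc a ^ 2 * b ^ 4 ≤ (s⁻¹ * b ^ 2) * b ^ 4 := mul_le_mul_of_nonneg_right h1 (by positivity)
      _ = s⁻¹ * b ^ 6 := by ring
      _ ≤ _ := by linarith

lemma Nice.int22 (hv : Nice v) (hu : Nice u) :
    Integrable (fun x => v x ^ 2 * u x ^ 2 * ‖x‖⁻¹) (volume : Measure E) := by
  have hi : Integrable (fun x => (v x * ‖x‖⁻¹) ^ 2 + (v x ^ 6 + u x ^ 6))
      (volume : Measure E) := hv.ih.add (hv.i6.add hu.i6)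
  refine hi.mono' (((hv.aesm.pow 2).mul (hu.aesm.pow 2)).mul
    (measurable_norm.inv).aestronglyMeasurable) (Eventually.of_forall fun x => ?_)
  have h0 : 0 ≤ ‖x‖⁻¹ := by positivity
  rw [Real.norm_eq_abs, abs_of_nonneg (by positivity)]
  have h1 := young24 (v x) (u x) 1 one_pos
  have h2 : v x ^ 2 * u x ^ 2 * ‖x‖⁻¹ ≤ (v x * ‖x‖⁻¹) ^ 2 + v x ^ 2 * u x ^ 4 := by
    nlinarith [sq_nonneg (v x * ‖x‖⁻¹ - v x * u x ^ 2), sq_nonneg (v x * ‖x‖⁻¹),
      sq_nonneg (v x * u x ^ 2)]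
  norm_num at h1
  linarith

/-- the key bound -/
lemma vu_bound (hv : Nice v) (hu : Nice u) {B : Set E}
    (hB : NullMeasurableSet B (volume : Measure E)) {K s : ℝ} (hK : 0 ≤ K) (hs : 0 < s)
    (hBK : ∀ᵐ x ∂(volume : Measure E), x ∉ B → u x ^ 2 * ‖x‖⁻¹ ≤ K) :
    ∫ x, v x ^ 2 * u x ^ 2 * ‖x‖⁻¹ ≤ 1 / 32 * (∫ x, (v x * ‖x‖⁻¹) ^ 2) +
      (8 * s ^ 2) * (∫ x, v x ^ 6) + (8 * s⁻¹) * (∫ x, B.indicator (fun x => u x ^ 6) x) +
      K * ∫ x, v x ^ 2 := by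
  have i1 := hv.ih.const_mul (1 / 32)
  have i2 := hv.i6.const_mul (8 * s ^ 2)
  have i3 : Integrable (fun x => (8 * s⁻¹) * B.indicator (fun x => u x ^ 6) x)
      (volume : Measure E) := (hu.i6.indicator₀ hB).const_mul (8 * s⁻¹)
  have i4 := hv.i2.const_mul K
  have e : 1 / 32 * (∫ x, (v x * ‖x‖⁻¹) ^ 2) +
      (8 * s ^ 2) * (∫ x, v x ^ 6) + (8 * s⁻¹) * (∫ x, B.indicator (fun x => u x ^ 6) x) +
      K * ∫ x, v x ^ 2 = ∫ x, (1 / 32 * (v x * ‖x‖⁻¹) ^ 2 + (8 * s ^ 2) * v x ^ 6 +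
        (8 * s⁻¹) * B.indicator (fun x => u x ^ 6) x + K * v x ^ 2) := by
    have i12 : Integrable (fun x => 1 / 32 * (v x * ‖x‖⁻¹) ^ 2 + (8 * s ^ 2) * v x ^ 6)
      (volume : Measure E) := i1.add i2
    have i123 : Integrable (fun x => 1 / 32 * (v x * ‖x‖⁻¹) ^ 2 + (8 * s ^ 2) * v x ^ 6 +
      (8 * s⁻¹) * B.indicator (fun x => u x ^ 6) x) (volume : Measure E) := i12.add i3
    rw [integral_add i123 i4, integral_add i12 i3, integral_add i1 i2,
      integral_const_mul, integral_const_mul, integral_const_mul, integral_const_mul]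
  rw [e]
  apply integral_mono_ae (hv.int22 hu) (((i1.add i2).add i3).add i4)
  filter_upwards [hBK] with x hx
  show v x ^ 2 * u x ^ 2 * ‖x‖⁻¹ ≤ 1 / 32 * (v x * ‖x‖⁻¹) ^ 2 + (8 * s ^ 2) * v x ^ 6 +
        (8 * s⁻¹) * B.indicator (fun x => u x ^ 6) x + K * v x ^ 2
  have hsi : 0 < s⁻¹ := inv_pos.2 hs
  by_cases hxB : x ∈ B
  · rw [Set.indicator_of_mem hxB]
    have h1 := young24 (v x) (u x) s hs
    have h2 : v x ^ 2 * u x ^ 2 * ‖x‖⁻¹ ≤ 1 / 32 * (v x * ‖x‖⁻¹) ^ 2 +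
        8 * (v x ^ 2 * u x ^ 4) := by
      nlinarith [sq_nonneg (v x * ‖x‖⁻¹ - 16 * (v x * u x ^ 2))]
    have h3 : 0 ≤ K * v x ^ 2 := by positivity
    linarith
  · rw [Set.indicator_of_notMem hxB]
    have h1 := hx hxB
    have h2 : v x ^ 2 * u x ^ 2 * ‖x‖⁻¹ ≤ K * v x ^ 2 := by
      have := mul_le_mul_of_nonneg_left h1 (sq_nonneg (v x))
      linarith
    have h3 : 0 ≤ 1 / 32 * (v x * ‖x‖⁻¹) ^ 2 := by positivity
    have h4 : 0 ≤ (8 * s ^ 2) * v x ^ 6 := by positivity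
    linarith

/-- bad sets -/
def Bd (u : E → ℝ) (k : ℝ) : Set E := {x | k < u x} ∪ {x | ‖x‖ < k⁻¹}

lemma Bd_null (hu : AEStronglyMeasurable u (volume : Measure E)) (k : ℝ) :
    NullMeasurableSet (Bd u k) (volume : Measure E) := by
  apply NullMeasurableSet.union
  · exact nullMeasurableSet_lt aemeasurable_const hu.aemeasurable
  · exact (measurableSet_lt measurable_norm measurable_const).nullMeasurableSet

lemma Bd_small (hu : Nice u) {δ : ℝ} (hδ : 0 < δ) :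
    ∃ k : ℝ, 1 ≤ k ∧ ∫ x, (Bd u k).indicator (fun x => u x ^ 6) x ≤ δ := by
  have hlim : Tendsto (fun n : ℕ => ∫ x, (Bd u ((n : ℝ) + 1)).indicator (fun x => u x ^ 6) x)
      atTop (𝓝 (∫ _x : E, (0 : ℝ))) := by
    apply tendsto_integral_of_dominated_convergence (fun x => u x ^ 6)
    · intro n
      exact (hu.i6.indicator₀ (Bd_null hu.aesm _)).1
    · exact hu.i6
    · intro n
      refine Eventually.of_forall fun x => ?_
      rw [Real.norm_eq_abs]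
      by_cases hx : x ∈ Bd u ((n : ℝ) + 1)
      · rw [Set.indicator_of_mem hx, abs_of_nonneg (by positivity)]
      · rw [Set.indicator_of_notMem hx, abs_zero]; positivity
    · have h0 : ∀ᵐ x ∂(volume : Measure E), x ≠ 0 := by
        rw [ae_iff]
        simp
      filter_upwards [h0] with x hx
      apply tendsto_const_nhds.congr'
      have hx0 : 0 < ‖x‖ := norm_pos_iff.2 hx
      obtain ⟨N, hN⟩ := exists_nat_ge (max (u x) (‖x‖⁻¹))
      filter_upwards [eventually_ge_atTop N] with n hn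
      have hn' : (N : ℝ) ≤ n := by exact_mod_cast hn
      rw [Set.indicator_of_notMem]
      rintro (h | h)
      · have h1 : (n : ℝ) + 1 < u x := h
        have := le_max_left (u x) (‖x‖⁻¹)
        linarith
      · have h1 : ‖x‖ < ((n : ℝ) + 1)⁻¹ := h
        have h2 := le_max_right (u x) (‖x‖⁻¹)
        have h3 : ‖x‖⁻¹ ≤ (n : ℝ) + 1 := by linarith
        have h4 : ((n : ℝ) + 1)⁻¹ ≤ ‖x‖ := by
          rw [inv_le_comm₀ (by positivity) hx0]; exact h3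
        linarith
  rw [integral_zero] at hlim
  have h1 := hlim.eventually (gt_mem_nhds hδ)
  obtain ⟨n, hn⟩ := h1.exists
  exact ⟨(n : ℝ) + 1, by linarith [Nat.cast_nonneg (α := ℝ) n], hn.le⟩

end Run7.h198.LL
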