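import Pool.Agent.Run7.h198.LL.Test

/-! The space `H¹₀` on `ℝ³` as a set of pairs (function, weak gradient). -/

set_option autoImplicit false

namespace Run7.h198.LL

open MeasureTheory Filter Topology
open scoped ENNReal NNReal

/-- smooth functions with compact support in `Ω` -/
def TF (Ω : Set E) (φ : E → ℝ) : Prop :=
  ContDiff ℝ ((⊤ : ℕ∞) : WithTop ℕ∞) φ ∧ HasCompactSupport φ ∧ tsupport φ ⊆ Ω

/-- `f` lies in `H¹₀(Ω)` and `F` is its weak gradient -/
structure H10 (Ω : Set E) (f : E → ℝ) (F : E → E) : Prop where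
  memf : MemLp f 2 (volume : Measure E)
  memF : MemLp F 2 (volume : Measure E)
  approx : ∃ φ : ℕ → E → ℝ, (∀ n, TF Ω (φ n)) ∧
    Tendsto (fun n => eLpNorm (fun x => φ n x - f x) 2 (volume : Measure E)) atTop (𝓝 0) ∧
    Tendsto (fun n => eLpNorm (fun x => gradient (φ n) x - F x) 2 (volume : Measure E))
      atTop (𝓝 0)

variable {Ω : Set E} {f g : E → ℝ} {F G : E → E}

lemma TF.contDiff_one {φ : E → ℝ} (h : TF Ω φ) : ContDiff ℝ 1 φ := h.1.of_le (by norm_cast)

lemma TF.continuous {φ : E → ℝ} (h : TF Ω φ) : Continuous φ := h.1.continuous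

lemma TF.differentiable {φ : E → ℝ} (h : TF Ω φ) : Differentiable ℝ φ :=
  h.contDiff_one.differentiable (by norm_num)

lemma TF.continuous_gradient {φ : E → ℝ} (h : TF Ω φ) : Continuous (gradient φ) := by
  unfold gradient
  exact (LinearIsometryEquiv.continuous _).comp (h.contDiff_one.continuous_fderiv (by norm_num))

lemma TF.hasCompactSupport_gradient {φ : E → ℝ} (h : TF Ω φ) :
    HasCompactSupport (gradient φ) := by
  have : gradient φ = (fun A => (InnerProductSpace.toDual ℝ E).symm A) ∘ fderiv ℝ φ := rfl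
  rw [this]
  exact (h.2.1.fderiv ℝ).comp_left (by simp)

lemma TF.memLp {φ : E → ℝ} (h : TF Ω φ) (p : ℝ≥0∞) : MemLp φ p (volume : Measure E) :=
  h.continuous.memLp_of_hasCompactSupport h.2.1

lemma TF.memLp_gradient {φ : E → ℝ} (h : TF Ω φ) (p : ℝ≥0∞) :
    MemLp (gradient φ) p (volume : Measure E) :=
  h.continuous_gradient.memLp_of_hasCompactSupport h.hasCompactSupport_gradient

lemma H10.of_test {φ : E → ℝ} (h : TF Ω φ) : H10 Ω φ (gradient φ) where
  memf := h.memLp 2
  memF := h.memLp_gradient 2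
  approx := ⟨fun _ => φ, fun _ => h, by simp, by simp⟩

/-- lower semicontinuity -/
lemma H10.lsc (h : H10 Ω f F) (p : ℝ≥0∞) (C : ℝ≥0∞) (hC : C ≠ ∞) (T : (E → ℝ) → E → ℝ)
    (hT : ∀ φ, TF Ω φ → AEStronglyMeasurable (T φ) (volume : Measure E) ∧
      eLpNorm (T φ) p volume ≤ C * eLpNorm (gradient φ) 2 volume)
    (hlim : ∀ φ : ℕ → E → ℝ, (∀ᵐ x ∂(volume : Measure E),
        Tendsto (fun n => φ n x) atTop (𝓝 (f x))) →
      ∀ᵐ x ∂(volume : Measure E), Tendsto (fun n => T (φ n) x) atTop (𝓝 (T f x))) :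
    eLpNorm (T f) p volume ≤ C * eLpNorm F 2 volume := by
  obtain ⟨φ, hφ, h1, h2⟩ := h.approx
  have hm : TendstoInMeasure volume φ atTop f := by
    apply tendstoInMeasure_of_tendsto_eLpNorm (p := 2) (by norm_num)
      (fun n => (hφ n).continuous.aestronglyMeasurable) h.memf.1
    exact h1
  obtain ⟨ns, hns, hae⟩ := hm.exists_seq_tendsto_ae
  have h3 := hlim (fun k => φ (ns k)) hae
  have h4 := Lp.eLpNorm_lim_le_liminf_eLpNorm (p := p) (μ := (volume : Measure E))
    (f := fun k => T (φ (ns k))) (fun k => (hT _ (hφ _)).1) (T f) h3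
  refine h4.trans ?_
  have h5 : ∀ k, eLpNorm (T (φ (ns k))) p volume ≤
      C * (eLpNorm (fun x => gradient (φ (ns k)) x - F x) 2 volume + eLpNorm F 2 volume) := by
    intro k
    refine ((hT _ (hφ _)).2).trans ?_
    gcongr
    have h6 : gradient (φ (ns k)) = (fun x => gradient (φ (ns k)) x - F x) + F := by
      funext x; simp
    calc eLpNorm (gradient (φ (ns k))) 2 volume
        = eLpNorm ((fun x => gradient (φ (ns k)) x - F x) + F) 2 volume := by rw [← h6]
      _ ≤ _ := eLpNorm_add_le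
          (((hφ _).continuous_gradient.aestronglyMeasurable).sub h.memF.1) h.memF.1 (by norm_num)
  have h7 : Tendsto (fun k => C * (eLpNorm (fun x => gradient (φ (ns k)) x - F x) 2 volume +
      eLpNorm F 2 volume)) atTop (𝓝 (C * (0 + eLpNorm F 2 volume))) := by
    apply ENNReal.Tendsto.const_mul _ (Or.inr hC)
    exact (h2.comp hns.tendsto_atTop).add tendsto_const_nhds
  rw [zero_add] at h7
  exact (liminf_le_liminf (Eventually.of_forall h5)).trans (le_of_eq h7.liminf_eq)

theorem sobolev : ∃ C : ℝ≥0, ∀ (Ω : Set E) (f : E → ℝ) (F : E → E), H10 Ω f F →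
    eLpNorm f 6 (volume : Measure E) ≤ C * eLpNorm F 2 volume := by
  obtain ⟨C, hC⟩ := sobolev_test
  refine ⟨C, fun Ω f F h => ?_⟩
  exact h.lsc 6 C (by simp) (fun φ => φ)
    (fun φ hφ => ⟨hφ.continuous.aestronglyMeasurable, hC φ hφ.contDiff_one hφ.2.1⟩)
    (fun φ hφ => hφ)

theorem H10.hardy (h : H10 Ω f F) :
    eLpNorm (fun x => f x * ‖x‖⁻¹) 2 (volume : Measure E) ≤ 2 * eLpNorm F 2 volume := by
  refine h.lsc 2 2 (by simp) (fun φ x => φ x * ‖x‖⁻¹)
    (fun φ hφ => ⟨?_, hardy_test φ hφ.contDiff_one hφ.2.1⟩) ?_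
  · exact (hφ.continuous.measurable.mul (measurable_norm.inv)).aestronglyMeasurable
  · intro φ hφ
    filter_upwards [hφ] with x hx
    exact hx.mul_const _

lemma qmp_dil {t : ℝ} (ht : t ≠ 0) :
    Measure.QuasiMeasurePreserving (fun x : E => t • x) volume volume := by
  refine ⟨measurable_const_smul t, ?_⟩
  have h2 := Measure.map_addHaar_smul (volume : Measure E) ht
  have h3 : (fun x : E => t • x) = (t • · : E → E) := rfl
  rw [h3, h2]
  exact Measure.smul_absolutelyContinuous

theorem H10.dil_diff (h : H10 Ω f F) (hΩ : Ω ⊆ Metric.closedBall 0 2) {lam : ℝ}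
    (hl : 1 ≤ lam) :
    eLpNorm (fun x => f (lam • x) - f x) 2 (volume : Measure E) ≤
      ENNReal.ofReal (2 * (lam - 1)) * eLpNorm F 2 volume := by
  refine h.lsc 2 _ ENNReal.ofReal_ne_top (fun φ x => φ (lam • x) - φ x)
    (fun φ hφ => ⟨?_, dil_test φ hφ.contDiff_one (hφ.2.2.trans hΩ) hl⟩) ?_
  · exact ((hφ.continuous.comp (continuous_const_smul lam)).sub hφ.continuous).aestronglyMeasurable
  · intro φ hφ
    have h1 := (qmp_dil (t := lam) (by linarith)).ae hφ
    filter_upwards [hφ, h1] with x hx hx'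
    exact hx'.sub hx

lemma gradient_sub' {φ ψ : E → ℝ} (hφ : Differentiable ℝ φ) (hψ : Differentiable ℝ ψ) (x : E) :
    gradient (fun x => φ x - ψ x) x = gradient φ x - gradient ψ x := by
  unfold gradient
  rw [fderiv_fun_sub (hφ x) (hψ x), map_sub]

lemma H10.sub (h1 : H10 Ω f F) (h2 : H10 Ω g G) :
    H10 Ω (fun x => f x - g x) (fun x => F x - G x) where
  memf := h1.memf.sub h2.memf
  memF := h1.memF.sub h2.memF
  approx := by
    obtain ⟨φ, hφ, a1, a2⟩ := h1.approx
    obtain ⟨ψ, hψ, b1, b2⟩ := h2.approx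
    refine ⟨fun n x => φ n x - ψ n x, fun n => ⟨(hφ n).1.sub (hψ n).1, ?_, ?_⟩, ?_, ?_⟩
    · exact (hφ n).2.1.sub (hψ n).2.1
    · refine (tsupport_sub (φ n) (ψ n)).trans ?_
      exact Set.union_subset (hφ n).2.2 (hψ n).2.2
    · have hsum := a1.add b1
      rw [add_zero] at hsum
      refine tendsto_of_tendsto_of_tendsto_of_le_of_le tendsto_const_nhds hsum
        (fun n => zero_le) (fun n => ?_)
      have e : (fun x => φ n x - ψ n x - (f x - g x)) =
          (fun x => φ n x - f x) - (fun x => ψ n x - g x) := by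
        funext x; simp only [Pi.sub_apply]; ring
      show eLpNorm (fun x => φ n x - ψ n x - (f x - g x)) 2 volume ≤ _
      rw [e]
      exact eLpNorm_sub_le (((hφ n).continuous.aestronglyMeasurable).sub h1.memf.1)
        (((hψ n).continuous.aestronglyMeasurable).sub h2.memf.1) (by norm_num)
    · have hsum := a2.add b2
      rw [add_zero] at hsum
      refine tendsto_of_tendsto_of_tendsto_of_le_of_le tendsto_const_nhds hsum
        (fun n => zero_le) (fun n => ?_)
      have e : (fun x => gradient (fun x => φ n x - ψ n x) x - (F x - G x)) =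
          (fun x => gradient (φ n) x - F x) - (fun x => gradient (ψ n) x - G x) := by
        funext x
        rw [gradient_sub' (hφ n).differentiable (hψ n).differentiable]
        simp only [Pi.sub_apply]; abel
      show eLpNorm (fun x => gradient (fun x => φ n x - ψ n x) x - (F x - G x)) 2 volume ≤ _
      rw [e]
      exact eLpNorm_sub_le (((hφ n).continuous_gradient.aestronglyMeasurable).sub h1.memF.1)
        (((hψ n).continuous_gradient.aestronglyMeasurable).sub h2.memF.1) (by norm_num)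

lemma eLpNorm_dil {F' : Type*} [NormedAddCommGroup F'] {k : E → F'} {t : ℝ}
    (hk : AEStronglyMeasurable k (volume : Measure E)) (ht : 1 ≤ t) (p : ℝ≥0∞) :
    eLpNorm (fun x => k (t • x)) p (volume : Measure E) ≤ eLpNorm k p volume := by
  have ht0 : t ≠ 0 := by linarith
  have h2 := Measure.map_addHaar_smul (volume : Measure E) ht0
  have h1 : eLpNorm k p (Measure.map (t • · : E → E) volume) =
      eLpNorm (k ∘ (t • · : E → E)) p volume := by
    apply eLpNorm_map_measure
    · rw [h2]
      exact hk.smul_measure _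
    · exact (measurable_const_smul t).aemeasurable
  have h3 : (fun x => k (t • x)) = k ∘ (t • · : E → E) := rfl
  rw [h3, ← h1, h2]
  apply eLpNorm_mono_measure
  rw [finrank_E]
  have h4 : ENNReal.ofReal |(t ^ 3)⁻¹| ≤ 1 := by
    rw [← ENNReal.ofReal_one]
    apply ENNReal.ofReal_le_ofReal
    have : 1 ≤ t ^ 3 := one_le_pow₀ ht
    rw [abs_of_pos (by positivity)]
    exact inv_le_one_of_one_le₀ this
  calc ENNReal.ofReal |(t ^ 3)⁻¹| • (volume : Measure E) ≤ (1 : ℝ≥0∞) • volume := by
        gcongr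
    _ = volume := one_smul _ _

lemma gradient_dil {φ : E → ℝ} (hφ : Differentiable ℝ φ) (c t : ℝ) (x : E) :
    gradient (fun x => c * φ (t • x)) x = (c * t) • gradient φ (t • x) := by
  have h1 : HasFDerivAt (fun x : E => t • x) (t • ContinuousLinearMap.id ℝ E) x :=
    (hasFDerivAt_id x).const_smul t
  have h2 : HasFDerivAt (fun x => φ (t • x))
      ((fderiv ℝ φ (t • x)).comp (t • ContinuousLinearMap.id ℝ E)) x :=
    (hφ (t • x)).hasFDerivAt.comp x h1
  have h3 := h2.const_mul c
  unfold gradient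
  rw [h3.fderiv]
  have h4 : (c • (fderiv ℝ φ (t • x)).comp (t • ContinuousLinearMap.id ℝ E)) =
      (c * t) • fderiv ℝ φ (t • x) := by
    ext y
    simp [mul_assoc]
  rw [h4, map_smul]

lemma TF.dilate {φ : E → ℝ} (h : TF Ω φ) (c : ℝ) {t : ℝ} (ht : t ≠ 0)
    (hΩ : ∀ x, t • x ∈ Ω → x ∈ Ω) : TF Ω (fun x => c * φ (t • x)) := by
  have hc : HasCompactSupport (fun x => φ (t • x)) :=
    h.2.1.comp_homeomorph (Homeomorph.smulOfNeZero t ht)
  refine ⟨?_, hc.mul_left, ?_⟩
  · have h5 : ContDiff ℝ ((⊤ : ℕ∞) : WithTop ℕ∞) (fun x : E => t • x) := by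
      fun_prop
    exact contDiff_const.mul (h.1.comp h5)
  · intro x hx
    apply hΩ
    apply h.2.2
    have h1 : Function.support (fun x => c * φ (t • x)) ⊆ (fun x : E => t • x) ⁻¹' tsupport φ := by
      intro y hy
      apply subset_tsupport
      intro h0
      apply hy
      show c * φ (t • y) = 0
      rw [h0, mul_zero]
    exact closure_minimal h1 ((isClosed_tsupport φ).preimage (continuous_const_smul t)) hx

lemma H10.dilate (h : H10 Ω f F) (c : ℝ) {t : ℝ} (ht : 1 ≤ t)
    (hΩ : ∀ x, t • x ∈ Ω → x ∈ Ω) :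
    H10 Ω (fun x => c * f (t • x)) (fun x => (c * t) • F (t • x)) where
  memf := by
    have h1 : MemLp (fun x => f (t • x)) 2 (volume : Measure E) :=
      ⟨h.memf.1.comp_quasiMeasurePreserving (qmp_dil (by linarith)),
        (eLpNorm_dil h.memf.1 ht 2).trans_lt h.memf.2⟩
    exact h1.const_mul c
  memF := by
    have h1 : MemLp (fun x => F (t • x)) 2 (volume : Measure E) :=
      ⟨h.memF.1.comp_quasiMeasurePreserving (qmp_dil (by linarith)),
        (eLpNorm_dil h.memF.1 ht 2).trans_lt h.memF.2⟩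
    exact h1.const_smul (c * t)
  approx := by
    obtain ⟨φ, hφ, a1, a2⟩ := h.approx
    refine ⟨fun n x => c * φ n (t • x), fun n => (hφ n).dilate c (by linarith) hΩ, ?_, ?_⟩
    · have h1 : Tendsto (fun n => ‖c‖ₑ * eLpNorm (fun x => φ n x - f x) 2
          (volume : Measure E)) atTop (𝓝 (‖c‖ₑ * 0)) :=
        ENNReal.Tendsto.const_mul a1 (Or.inr (by simp))
      rw [mul_zero] at h1
      refine tendsto_of_tendsto_of_tendsto_of_le_of_le tendsto_const_nhds h1
        (fun n => zero_le) (fun n => ?_)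
      have e : (fun x => c * φ n (t • x) - c * f (t • x)) =
          c • (fun x => (fun y => φ n y - f y) (t • x)) := by
        funext x; simp only [Pi.smul_apply, smul_eq_mul]; ring
      show eLpNorm (fun x => c * φ n (t • x) - c * f (t • x)) 2 volume ≤ _
      rw [e, eLpNorm_const_smul]
      gcongr
      exact eLpNorm_dil (((hφ n).continuous.aestronglyMeasurable).sub h.memf.1) ht 2
    · have h1 : Tendsto (fun n => ‖c * t‖ₑ * eLpNorm (fun x => gradient (φ n) x - F x) 2
          (volume : Measure E)) atTop (𝓝 (‖c * t‖ₑ * 0)) :=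
        ENNReal.Tendsto.const_mul a2 (Or.inr enorm_ne_top)
      rw [mul_zero] at h1
      refine tendsto_of_tendsto_of_tendsto_of_le_of_le tendsto_const_nhds h1
        (fun n => zero_le) (fun n => ?_)
      have e : (fun x => gradient (fun x => c * φ n (t • x)) x - (c * t) • F (t • x)) =
          (c * t) • (fun x => (fun y => gradient (φ n) y - F y) (t • x)) := by
        funext x
        rw [gradient_dil (hφ n).differentiable]
        simp only [Pi.smul_apply, smul_sub]
      show eLpNorm (fun x => gradient (fun x => c * φ n (t • x)) x - (c * t) • F (t • x)) 2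
        volume ≤ _
      rw [e, eLpNorm_const_smul]
      gcongr
      exact eLpNorm_dil (((hφ n).continuous_gradient.aestronglyMeasurable).sub h.memF.1) ht 2

end Run7.h198.LL
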