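import Pool.Agent.Run7.h198.LL.H10

/-! Real integrals attached to `H¹₀` pairs. -/

set_option autoImplicit false

namespace Run7.h198.LL

open MeasureTheory Filter Topology
open scoped ENNReal NNReal

variable {Ω : Set E} {f g : E → ℝ} {F G : E → E}

lemma eLpNorm_two_sq_real {F' : Type*} [NormedAddCommGroup F'] {f : E → F'}
    (hf : MemLp f 2 (volume : Measure E)) :
    (eLpNorm f 2 (volume : Measure E)) ^ 2 = ENNReal.ofReal (∫ x, ‖f x‖ ^ 2) := by
  rw [eLpNorm_two_sq]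
  simp_rw [enorm_sq_eq]
  rw [ofReal_integral_eq_lintegral_ofReal]
  · exact hf.integrable_norm_pow (by norm_num)
  · exact Eventually.of_forall fun x => by positivity

lemma eLpNorm_six_real {F' : Type*} [NormedAddCommGroup F'] {f : E → F'}
    (hf : MemLp f 6 (volume : Measure E)) :
    (eLpNorm f 6 (volume : Measure E)) ^ 6 = ENNReal.ofReal (∫ x, ‖f x‖ ^ 6) := by
  have h := eLpNorm_nat_pow f 6 (by norm_num)
  have e : ((6 : ℕ) : ℝ≥0∞) = 6 := by norm_num
  rw [e] at h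
  rw [h]
  simp_rw [enorm_sq_eq]
  rw [ofReal_integral_eq_lintegral_ofReal]
  · exact hf.integrable_norm_pow (by norm_num)
  · exact Eventually.of_forall fun x => by positivity

lemma int_sq_le_of_eLpNorm_le {F' F'' : Type*} [NormedAddCommGroup F'] [NormedAddCommGroup F'']
    {a : E → F'} {b : E → F''} (ha : AEStronglyMeasurable a (volume : Measure E))
    (hb : MemLp b 2 (volume : Measure E)) {K : ℝ} (hK : 0 ≤ K)
    (h : eLpNorm a 2 (volume : Measure E) ≤ ENNReal.ofReal K * eLpNorm b 2 volume) :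
    MemLp a 2 (volume : Measure E) ∧ ∫ x, ‖a x‖ ^ 2 ≤ K ^ 2 * ∫ x, ‖b x‖ ^ 2 := by
  have hma : MemLp a 2 (volume : Measure E) :=
    ⟨ha, h.trans_lt (ENNReal.mul_lt_top ENNReal.ofReal_lt_top hb.2)⟩
  refine ⟨hma, ?_⟩
  have h2 := pow_le_pow_left₀ (zero_le : (0 : ℝ≥0∞) ≤ _) h 2
  rw [mul_pow, eLpNorm_two_sq_real hma, eLpNorm_two_sq_real hb, ← ENNReal.ofReal_pow hK,
    ← ENNReal.ofReal_mul (by positivity)] at h2
  exact (ENNReal.ofReal_le_ofReal_iff (by positivity)).1 h2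

/-- integrability package -/
structure Nice (f : E → ℝ) : Prop where
  aesm : AEStronglyMeasurable f (volume : Measure E)
  i2 : Integrable (fun x => f x ^ 2) (volume : Measure E)
  i6 : Integrable (fun x => f x ^ 6) (volume : Measure E)
  ih : Integrable (fun x => (f x * ‖x‖⁻¹) ^ 2) (volume : Measure E)

theorem H10.hardy_int (h : H10 Ω f F) :
    Integrable (fun x => (f x * ‖x‖⁻¹) ^ 2) (volume : Measure E) ∧
    ∫ x, (f x * ‖x‖⁻¹) ^ 2 ≤ 4 * ∫ x, ‖F x‖ ^ 2 := by
  have hm : AEStronglyMeasurable (fun x : E => f x * ‖x‖⁻¹) (volume : Measure E) :=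
    h.memf.1.mul (measurable_norm.inv).aestronglyMeasurable
  obtain ⟨h1, h2⟩ := int_sq_le_of_eLpNorm_le hm h.memF (K := 2) (by norm_num)
    (by simpa using h.hardy)
  have e : ∀ x : E, ‖f x * ‖x‖⁻¹‖ ^ 2 = (f x * ‖x‖⁻¹) ^ 2 := fun x => by
    rw [Real.norm_eq_abs, sq_abs]
  constructor
  · have := h1.integrable_norm_pow (by norm_num)
    refine this.congr (Eventually.of_forall fun x => ?_)
    simpa using e x
  · simp_rw [e] at h2
    norm_num at h2
    simpa using h2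

theorem sobolev_int : ∃ S : ℝ, 0 ≤ S ∧ ∀ (Ω : Set E) (f : E → ℝ) (F : E → E), H10 Ω f F →
    Integrable (fun x => f x ^ 6) (volume : Measure E) ∧
    ∫ x, f x ^ 6 ≤ S * (∫ x, ‖F x‖ ^ 2) ^ 3 := by
  obtain ⟨C, hC⟩ := sobolev
  refine ⟨(C : ℝ) ^ 6, by positivity, fun Ω f F h => ?_⟩
  have h1 := hC Ω f F h
  have hm : MemLp f 6 (volume : Measure E) :=
    ⟨h.memf.1, h1.trans_lt (ENNReal.mul_lt_top (by simp) h.memF.2)⟩
  have e : ∀ x : E, ‖f x‖ ^ 6 = f x ^ 6 := fun x => by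
    rw [Real.norm_eq_abs]
    exact Even.pow_abs (by decide) _
  constructor
  · have := hm.integrable_norm_pow (by norm_num)
    refine this.congr (Eventually.of_forall fun x => ?_)
    simpa using e x
  · have h2 := pow_le_pow_left₀ (zero_le : (0 : ℝ≥0∞) ≤ _) h1 6
    rw [mul_pow, eLpNorm_six_real hm] at h2
    have h3 : (eLpNorm F 2 (volume : Measure E)) ^ 6 =
        ENNReal.ofReal ((∫ x, ‖F x‖ ^ 2) ^ 3) := by
      rw [show 6 = 2 * 3 by norm_num, pow_mul, eLpNorm_two_sq_real h.memF,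
        ENNReal.ofReal_pow (by positivity)]
    have h4 : (C : ℝ≥0∞) ^ 6 = ENNReal.ofReal ((C : ℝ) ^ 6) := by
      rw [ENNReal.ofReal_pow (by positivity)]
      simp
    rw [h3, h4, ← ENNReal.ofReal_mul (by positivity)] at h2
    have h5 := (ENNReal.ofReal_le_ofReal_iff (by positivity)).1 h2
    simp_rw [e] at h5
    exact h5

lemma H10.nice (h : H10 Ω f F) : Nice f where
  aesm := h.memf.1
  i2 := by
    have := h.memf.integrable_norm_pow (by norm_num)
    refine this.congr (Eventually.of_forall fun x => ?_)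
    show ‖f x‖ ^ 2 = f x ^ 2
    rw [Real.norm_eq_abs, sq_abs]
  i6 := by
    obtain ⟨S, _, hS⟩ := sobolev_int
    exact (hS Ω f F h).1
  ih := h.hardy_int.1

theorem H10.dil_int (h : H10 Ω f F) (hΩ : Ω ⊆ Metric.closedBall 0 2) {lam : ℝ}
    (hl : 1 ≤ lam) :
    ∫ x, (f (lam • x) - f x) ^ 2 ≤ (2 * (lam - 1)) ^ 2 * ∫ x, ‖F x‖ ^ 2 := by
  have hm : AEStronglyMeasurable (fun x : E => f (lam • x) - f x) (volume : Measure E) :=
    (h.memf.1.comp_quasiMeasurePreserving (qmp_dil (by linarith))).sub h.memf.1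
  obtain ⟨_, h2⟩ := int_sq_le_of_eLpNorm_le hm h.memF (K := 2 * (lam - 1)) (by linarith)
    (h.dil_diff hΩ hl)
  simpa [sq_abs] using h2

end Run7.h198.LL
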