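import Pool.Agent.Run7.h198.LL.Core

/-! Nonexistence by dilation: the main argument. -/

set_option autoImplicit false

namespace Run7.h198.LL

open MeasureTheory Filter Topology
open scoped ENNReal NNReal

variable {Ω : Set E} {f g u v w : E → ℝ} {F G : E → E}

/-- the dilate -/
noncomputable def Wd (c : ℝ) (u : E → ℝ) : E → ℝ := fun x => c * u (c ^ 2 • x)

/-- its gradient -/
noncomputable def GWd (c : ℝ) (G : E → E) : E → E := fun x => (c * c ^ 2) • G (c ^ 2 • x)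

lemma H10.Wd (h : H10 Ω u G) {c : ℝ} (hc : 1 ≤ c)
    (hΩ : ∀ t : ℝ, 1 ≤ t → ∀ x, t • x ∈ Ω → x ∈ Ω) : H10 Ω (Wd c u) (GWd c G) :=
  h.dilate c (one_le_pow₀ hc) (hΩ _ (one_le_pow₀ hc))

lemma int_GWd {c : ℝ} (hc : 1 ≤ c) : ∫ x, ‖GWd c G x‖ ^ 2 = ∫ x, ‖G x‖ ^ 2 := by
  have hc0 : 0 < c := by linarith
  have e : (fun x => ‖GWd c G x‖ ^ 2) =
      fun x => (fun y => c ^ 6 * ‖G y‖ ^ 2) (c ^ 2 • x) := by
    funext x
    simp only [GWd]
    rw [norm_smul, Real.norm_eq_abs, abs_of_pos (by positivity)]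
    ring
  rw [e, integral_dil (fun y => c ^ 6 * ‖G y‖ ^ 2) (by positivity : 0 < c ^ 2),
    integral_const_mul]
  field_simp

lemma int_Wd_hardy {c : ℝ} (hc : 1 ≤ c) :
    ∫ x, Wd c u x ^ 3 * Wd c u x * ‖x‖⁻¹ = ∫ x, u x ^ 3 * u x * ‖x‖⁻¹ := by
  have hc0 : 0 < c := by linarith
  have e : (fun x : E => Wd c u x ^ 3 * Wd c u x * ‖x‖⁻¹) =
      fun x => (fun y => c ^ 6 * (u y ^ 3 * u y * ‖y‖⁻¹)) (c ^ 2 • x) := by
    funext x
    simp only [Wd]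
    rw [norm_smul, Real.norm_eq_abs, abs_of_pos (by positivity), mul_inv]
    field_simp
  rw [e, integral_dil (fun y => c ^ 6 * (u y ^ 3 * u y * ‖y‖⁻¹)) (by positivity : 0 < c ^ 2),
    integral_const_mul]
  field_simp

lemma int_Wd_five {c : ℝ} (hc : 1 ≤ c) :
    ∫ x, Wd c u x ^ 5 = c⁻¹ * ∫ x, u x ^ 5 := by
  have hc0 : 0 < c := by linarith
  have e : (fun x : E => Wd c u x ^ 5) =
      fun x => (fun y => c ^ 5 * u y ^ 5) (c ^ 2 • x) := by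
    funext x
    simp only [Wd]
    ring
  rw [e, integral_dil (fun y => c ^ 5 * u y ^ 5) (by positivity : 0 < c ^ 2),
    integral_const_mul]
  field_simp

lemma int_Wd_six {c : ℝ} (hc : 1 ≤ c) (B : Set E) :
    ∫ x, ((fun x : E => c ^ 2 • x) ⁻¹' B).indicator (fun x => Wd c u x ^ 6) x =
      ∫ x, B.indicator (fun x => u x ^ 6) x := by
  have hc0 : 0 < c := by linarith
  have e : (fun x : E => ((fun x : E => c ^ 2 • x) ⁻¹' B).indicator (fun x => Wd c u x ^ 6) x) =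
      fun x => (fun y => c ^ 6 * B.indicator (fun x => u x ^ 6) y) (c ^ 2 • x) := by
    funext x
    by_cases hx : c ^ 2 • x ∈ B
    · have hx' : x ∈ (fun x : E => c ^ 2 • x) ⁻¹' B := hx
      rw [Set.indicator_of_mem hx']
      simp only
      rw [Set.indicator_of_mem hx]
      simp only [Wd]
      ring
    · have hx' : x ∉ (fun x : E => c ^ 2 • x) ⁻¹' B := hx
      rw [Set.indicator_of_notMem hx']
      simp only
      rw [Set.indicator_of_notMem hx, mul_zero]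
  rw [e, integral_dil (fun y => c ^ 6 * B.indicator (fun x => u x ^ 6) y)
    (by positivity : 0 < c ^ 2), integral_const_mul]
  field_simp

lemma Wd_nonneg (hpos : ∀ᵐ x ∂(volume : Measure E), 0 ≤ u x) {c : ℝ} (hc : 1 ≤ c) :
    ∀ᵐ x ∂(volume : Measure E), 0 ≤ Wd c u x := by
  have h1 := (qmp_dil (t := c ^ 2) (by positivity)).ae hpos
  filter_upwards [h1] with x hx
  exact mul_nonneg (by linarith) hx

theorem star (hu : H10 Ω u G) (hW : WeakTest Ω u G)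
    (hΩ : ∀ t : ℝ, 1 ≤ t → ∀ x, t • x ∈ Ω → x ∈ Ω)
    (hpos : ∀ᵐ x ∂(volume : Measure E), 0 ≤ u x) {c : ℝ} (hc : 1 ≤ c) :
    1 / 2 * (∫ x, ‖G x - GWd c G x‖ ^ 2) + 1 / 5 * (1 - c⁻¹) * (∫ x, u x ^ 5) ≤
      (∫ x, (u x - Wd c u x) ^ 2 * u x ^ 2 * ‖x‖⁻¹) +
      ∫ x, (u x - Wd c u x) ^ 2 * (Wd c u x) ^ 2 * ‖x‖⁻¹ := by
  have hw := hu.Wd hc hΩ
  have hv := hu.sub hw
  have nu := hu.nice
  have nw := hw.nice
  have nv := hv.nice
  have iG := hu.memF.integrable_norm_pow (by norm_num)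
  have iGw := hw.memF.integrable_norm_pow (by norm_num)
  have iin := integrable_inner' hu.memF hw.memF
  -- the square
  have hV : ∫ x, ‖G x - GWd c G x‖ ^ 2 = 2 * (∫ x, ‖G x‖ ^ 2) -
      2 * ∫ x, inner ℝ (G x) (GWd c G x) := by
    have e : ∀ x, ‖G x - GWd c G x‖ ^ 2 =
        ‖G x‖ ^ 2 - 2 * inner ℝ (G x) (GWd c G x) + ‖GWd c G x‖ ^ 2 := fun x =>
      norm_sub_sq_real _ _
    simp_rw [e]
    have j1 : Integrable (fun x => ‖G x‖ ^ 2) (volume : Measure E) := iG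
    have j2 : Integrable (fun x => 2 * inner ℝ (G x) (GWd c G x)) (volume : Measure E) :=
      iin.const_mul 2
    have j3 : Integrable (fun x => ‖G x‖ ^ 2 - 2 * inner ℝ (G x) (GWd c G x))
      (volume : Measure E) := j1.sub j2
    have j4 : Integrable (fun x => ‖GWd c G x‖ ^ 2) (volume : Measure E) := iGw
    rw [integral_add j3 j4, integral_sub j1 j2, integral_const_mul, int_GWd hc]
    ring
  have E1 := hW.extend hu hu
  have E2 := hW.extend hu hw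
  unfold Fn at E1 E2
  have e0 : ∫ x, inner ℝ (G x) (G x) = ∫ x, ‖G x‖ ^ 2 := by
    simp_rw [real_inner_self_eq_norm_sq]
  have e5 : ∫ x, u x ^ 4 * u x = ∫ x, u x ^ 5 := by
    simp_rw [← pow_succ]
  rw [e0, e5] at E1
  -- absorption term
  have J1 : ∫ x, u x ^ 4 * Wd c u x ≤ 4 / 5 * (∫ x, u x ^ 5) + 1 / 5 * (c⁻¹ * ∫ x, u x ^ 5) := by
    rw [← int_Wd_five hc, ← integral_const_mul, ← integral_const_mul,
      ← integral_add (nu.int5.const_mul _) (nw.int5.const_mul _)]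
    apply integral_mono_ae (nu.int41 nw) ((nu.int5.const_mul _).add (nw.int5.const_mul _))
    filter_upwards [hpos, Wd_nonneg hpos hc] with x h1 h2
    show u x ^ 4 * Wd c u x ≤ 4 / 5 * u x ^ 5 + 1 / 5 * Wd c u x ^ 5
    set a := u x
    set b := Wd c u x
    have : 0 ≤ (a - b) ^ 2 * (4 * a ^ 3 + 3 * a ^ 2 * b + 2 * a * b ^ 2 + b ^ 3) := by positivity
    nlinarith
  -- critical term
  have J2 : (∫ x, u x ^ 3 * u x * ‖x‖⁻¹) - (∫ x, u x ^ 3 * Wd c u x * ‖x‖⁻¹) ≤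
      (∫ x, (u x - Wd c u x) ^ 2 * u x ^ 2 * ‖x‖⁻¹) +
      ∫ x, (u x - Wd c u x) ^ 2 * (Wd c u x) ^ 2 * ‖x‖⁻¹ := by
    have k1 := (nu.int31 nu).const_mul (3 / 4)
    have k2 := (nw.int31 nw).const_mul (1 / 4)
    have k3 := nu.int31 nw
    have k12 : Integrable (fun x => 3 / 4 * (u x ^ 3 * u x * ‖x‖⁻¹) +
      1 / 4 * (Wd c u x ^ 3 * Wd c u x * ‖x‖⁻¹)) (volume : Measure E) := k1.add k2
    have l1 := nv.int22 nu
    have l2 := nv.int22 nw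
    have e : (∫ x, u x ^ 3 * u x * ‖x‖⁻¹) - (∫ x, u x ^ 3 * Wd c u x * ‖x‖⁻¹) =
        ∫ x, (3 / 4 * (u x ^ 3 * u x * ‖x‖⁻¹) +
          1 / 4 * (Wd c u x ^ 3 * Wd c u x * ‖x‖⁻¹) - u x ^ 3 * Wd c u x * ‖x‖⁻¹) := by
      rw [integral_sub k12 k3, integral_add k1 k2, integral_const_mul, integral_const_mul,
        int_Wd_hardy hc]
      ring
    rw [e, ← integral_add l1 l2]
    apply integral_mono (k12.sub k3) (l1.add l2)
    intro x
    show 3 / 4 * (u x ^ 3 * u x * ‖x‖⁻¹) +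
          1 / 4 * (Wd c u x ^ 3 * Wd c u x * ‖x‖⁻¹) - u x ^ 3 * Wd c u x * ‖x‖⁻¹ ≤
      (u x - Wd c u x) ^ 2 * u x ^ 2 * ‖x‖⁻¹ + (u x - Wd c u x) ^ 2 * (Wd c u x) ^ 2 * ‖x‖⁻¹
    set a := u x
    set b := Wd c u x
    have h0 : 0 ≤ ‖x‖⁻¹ := by positivity
    have h1 : 3 / 4 * (a ^ 3 * a) + 1 / 4 * (b ^ 3 * b) - a ^ 3 * b ≤
        (a - b) ^ 2 * a ^ 2 + (a - b) ^ 2 * b ^ 2 := by
      have h2 : 0 ≤ (a - b) ^ 2 * ((a - b) ^ 2 + 2 * b ^ 2) := by positivity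
      nlinarith
    have h3 := mul_le_mul_of_nonneg_right h1 h0
    linarith
  rw [hV]
  linarith

lemma int_v_sq (hu : H10 Ω u G) (hΩb : Ω ⊆ Metric.closedBall 0 2)
    (hΩ : ∀ t : ℝ, 1 ≤ t → ∀ x, t • x ∈ Ω → x ∈ Ω) {c : ℝ} (hc' : 1 ≤ c) (hc2 : c ≤ 2) :
    ∫ x, (u x - Wd c u x) ^ 2 ≤
      (72 * (∫ x, ‖G x‖ ^ 2) + 2 * (∫ x, u x ^ 2)) * (c - 1) ^ 2 := by
  have hc0 : 0 < c := by linarith
  have hv := hu.sub (hu.Wd hc' hΩ)
  have nv := hv.nice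
  have hd := hu.dil_int hΩb (lam := c ^ 2) (one_le_pow₀ hc')
  have hm : MemLp (fun x => u (c ^ 2 • x)) 2 (volume : Measure E) :=
    ⟨hu.memf.1.comp_quasiMeasurePreserving (qmp_dil (by positivity)),
      (eLpNorm_dil hu.memf.1 (one_le_pow₀ hc') 2).trans_lt hu.memf.2⟩
  have md : Integrable (fun x => (u (c ^ 2 • x) - u x) ^ 2) (volume : Measure E) := by
    have := (hm.sub hu.memf).integrable_norm_pow (by norm_num)
    refine this.congr (Eventually.of_forall fun x => ?_)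
    show ‖u (c ^ 2 • x) - u x‖ ^ 2 = (u (c ^ 2 • x) - u x) ^ 2
    rw [Real.norm_eq_abs, sq_abs]
  have mu : Integrable (fun x => u (c ^ 2 • x) ^ 2) (volume : Measure E) := by
    have := hm.integrable_norm_pow (by norm_num)
    refine this.congr (Eventually.of_forall fun x => ?_)
    show ‖u (c ^ 2 • x)‖ ^ 2 = u (c ^ 2 • x) ^ 2
    rw [Real.norm_eq_abs, sq_abs]
  have hI20 : 0 ≤ ∫ x, u x ^ 2 := integral_nonneg fun x => by positivity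
  have iu : ∫ x, u (c ^ 2 • x) ^ 2 ≤ ∫ x, u x ^ 2 := by
    rw [integral_dil (fun y => u y ^ 2) (by positivity : 0 < c ^ 2)]
    have h1 : ((c ^ 2) ^ 3)⁻¹ ≤ 1 := inv_le_one_of_one_le₀ (one_le_pow₀ (one_le_pow₀ hc'))
    calc ((c ^ 2) ^ 3)⁻¹ * ∫ x, u x ^ 2 ≤ 1 * ∫ x, u x ^ 2 :=
          mul_le_mul_of_nonneg_right h1 hI20
      _ = ∫ x, u x ^ 2 := one_mul _
  have hle : ∫ x, (u x - Wd c u x) ^ 2 ≤
      ∫ x, (2 * (u (c ^ 2 • x) - u x) ^ 2 + 2 * (c - 1) ^ 2 * u (c ^ 2 • x) ^ 2) := by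
    apply integral_mono nv.i2 ((md.const_mul 2).add (mu.const_mul (2 * (c - 1) ^ 2)))
    intro x
    show (u x - c * u (c ^ 2 • x)) ^ 2 ≤
      2 * (u (c ^ 2 • x) - u x) ^ 2 + 2 * (c - 1) ^ 2 * u (c ^ 2 • x) ^ 2
    nlinarith [sq_nonneg ((u x - u (c ^ 2 • x)) + (c - 1) * u (c ^ 2 • x))]
  rw [integral_add (md.const_mul 2) (mu.const_mul (2 * (c - 1) ^ 2)), integral_const_mul,
    integral_const_mul] at hle
  have hA0 : 0 ≤ ∫ x, ‖G x‖ ^ 2 := by positivity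
  have h9 : (2 * (c ^ 2 - 1)) ^ 2 * (∫ x, ‖G x‖ ^ 2) ≤
      36 * (c - 1) ^ 2 * (∫ x, ‖G x‖ ^ 2) := by
    apply mul_le_mul_of_nonneg_right _ hA0
    have : (2 * (c ^ 2 - 1)) ^ 2 = 4 * (c + 1) ^ 2 * (c - 1) ^ 2 := by ring
    rw [this]
    apply mul_le_mul_of_nonneg_right _ (sq_nonneg _)
    nlinarith
  have h10 : 2 * (c - 1) ^ 2 * ∫ x, u (c ^ 2 • x) ^ 2 ≤ 2 * (c - 1) ^ 2 * ∫ x, u x ^ 2 :=
    mul_le_mul_of_nonneg_left iu (by positivity)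
  linarith

/-- elementary bookkeeping -/
lemma bookkeeping (V d Z S σ β X6 Xh X k3 : ℝ) (hV0 : 0 ≤ V) (hd : 0 < d) (hS0 : 0 ≤ S)
    (hσ0 : 0 < σ) (hσ1 : σ ^ 2 * S ≤ 1 / 256) (hβ : β ≤ σ / 256)
    (h6 : X6 ≤ S * V ^ 3) (hh : Xh ≤ 4 * V)
    (hst : 1 / 2 * V + Z ≤
      (1 / 32 * Xh + (8 * (σ / (V + d)) ^ 2) * X6 + (8 * (σ / (V + d))⁻¹) * β + k3 * X) +
      (1 / 32 * Xh + (8 * (σ / (V + d)) ^ 2) * X6 + (8 * (σ / (V + d))⁻¹) * β + 16 * k3 * X)) :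
    Z ≤ d + 17 * k3 * X := by
  set V' := V + d with hV'
  have hV'0 : 0 < V' := by linarith
  have t1 : (8 * (σ / V') ^ 2) * X6 ≤ V' / 32 := by
    have h7 : X6 ≤ S * V' ^ 3 := by
      refine h6.trans (mul_le_mul_of_nonneg_left ?_ hS0)
      exact pow_le_pow_left₀ hV0 (by linarith) 3
    calc (8 * (σ / V') ^ 2) * X6 ≤ (8 * (σ / V') ^ 2) * (S * V' ^ 3) :=
          mul_le_mul_of_nonneg_left h7 (by positivity)
      _ = 8 * (σ ^ 2 * S) * V' := by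
          field_simp
      _ ≤ 8 * (1 / 256) * V' := by
          apply mul_le_mul_of_nonneg_right _ hV'0.le
          linarith
      _ = V' / 32 := by ring
  have t2 : (8 * (σ / V')⁻¹) * β ≤ V' / 32 := by
    calc (8 * (σ / V')⁻¹) * β ≤ (8 * (σ / V')⁻¹) * (σ / 256) :=
          mul_le_mul_of_nonneg_left hβ (by positivity)
      _ = V' / 32 := by
          field_simp; norm_num
  linarith

theorem main_ineq {S : ℝ} (hS0 : 0 ≤ S)
    (hS : ∀ (Ω : Set E) (f : E → ℝ) (F : E → E), H10 Ω f F →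
      Integrable (fun x => f x ^ 6) (volume : Measure E) ∧
      ∫ x, f x ^ 6 ≤ S * (∫ x, ‖F x‖ ^ 2) ^ 3)
    (hu : H10 Ω u G) (hW : WeakTest Ω u G)
    (hΩ : ∀ t : ℝ, 1 ≤ t → ∀ x, t • x ∈ Ω → x ∈ Ω)
    (hpos : ∀ᵐ x ∂(volume : Measure E), 0 ≤ u x)
    {σ k : ℝ} (hσ0 : 0 < σ) (hσ1 : σ ^ 2 * S ≤ 1 / 256) (hk1 : 1 ≤ k)
    (hk2 : ∫ x, (Bd u k).indicator (fun x => u x ^ 6) x ≤ σ / 256)
    {c : ℝ} (hc : 1 < c) (hc2 : c ≤ 2) :
    1 / 5 * (1 - c⁻¹) * (∫ x, u x ^ 5) ≤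
      (c - 1) ^ 2 + 17 * k ^ 3 * ∫ x, (u x - Wd c u x) ^ 2 := by
  have nu := hu.nice
  have hk0 : 0 < k := by linarith
  have hc' : 1 ≤ c := hc.le
  have hc0 : 0 < c := by linarith
  have hw := hu.Wd hc' hΩ
  have hv := hu.sub hw
  have nw := hw.nice
  have nv := hv.nice
  have hst := star hu hW hΩ hpos hc'
  have hV0 : 0 ≤ ∫ x, ‖G x - GWd c G x‖ ^ 2 := by positivity
  have hc1 : 0 < (c - 1) ^ 2 := by
    have : 0 < c - 1 := by linarith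
    positivity
  have hs0 : 0 < σ / ((∫ x, ‖G x - GWd c G x‖ ^ 2) + (c - 1) ^ 2) := by positivity
  -- bound of the two integrals
  have hB := Bd_null nu.aesm k
  have b1 := vu_bound nv nu hB (K := k ^ 3) (by positivity) hs0 (by
    filter_upwards [hpos] with x hx hxB
    have h1 : ¬ k < u x := fun h => hxB (Or.inl h)
    have h2 : ¬ ‖x‖ < k⁻¹ := fun h => hxB (Or.inr h)
    push Not at h1 h2
    have h3 : u x ^ 2 ≤ k ^ 2 := pow_le_pow_left₀ hx h1 2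
    have h4 : ‖x‖⁻¹ ≤ k := by
      rw [inv_le_comm₀ (lt_of_lt_of_le (by positivity) h2) hk0]; exact h2
    calc u x ^ 2 * ‖x‖⁻¹ ≤ k ^ 2 * k := mul_le_mul h3 h4 (by positivity) (by positivity)
      _ = k ^ 3 := by ring)
  have hB' : NullMeasurableSet ((fun x : E => c ^ 2 • x) ⁻¹' (Bd u k))
      (volume : Measure E) := hB.preimage (qmp_dil (by positivity))
  have b2 := vu_bound nv nw hB' (K := 16 * k ^ 3) (by positivity) hs0 (by
    have hp := (qmp_dil (t := c ^ 2) (by positivity)).ae hpos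
    filter_upwards [hp] with x hx hxB
    have hxB' : c ^ 2 • x ∉ Bd u k := hxB
    have h1 : ¬ k < u (c ^ 2 • x) := fun h => hxB' (Or.inl h)
    have h2 : ¬ ‖c ^ 2 • x‖ < k⁻¹ := fun h => hxB' (Or.inr h)
    push Not at h1 h2
    have h3 : u (c ^ 2 • x) ^ 2 ≤ k ^ 2 := pow_le_pow_left₀ hx h1 2
    rw [norm_smul, Real.norm_eq_abs, abs_of_pos (by positivity)] at h2
    have hxpos : 0 < ‖x‖ := by
      by_contra h0
      have : ‖x‖ = 0 := le_antisymm (not_lt.1 h0) (norm_nonneg x)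
      rw [this, mul_zero] at h2
      have : 0 < k⁻¹ := by positivity
      linarith
    have h4 : ‖x‖⁻¹ ≤ c ^ 2 * k := by
      rw [inv_le_comm₀ hxpos (by positivity), mul_inv, inv_mul_le_iff₀ (by positivity)]
      exact h2
    have hc4 : c ^ 4 ≤ 16 := by
      calc c ^ 4 ≤ 2 ^ 4 := pow_le_pow_left₀ hc0.le hc2 4
        _ = 16 := by norm_num
    show (Wd c u x) ^ 2 * ‖x‖⁻¹ ≤ 16 * k ^ 3
    simp only [Wd]
    calc (c * u (c ^ 2 • x)) ^ 2 * ‖x‖⁻¹ = c ^ 2 * (u (c ^ 2 • x) ^ 2 * ‖x‖⁻¹) := by ring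
      _ ≤ c ^ 2 * (k ^ 2 * (c ^ 2 * k)) := by
          apply mul_le_mul_of_nonneg_left _ (by positivity)
          exact mul_le_mul h3 h4 (by positivity) (by positivity)
      _ = c ^ 4 * k ^ 3 := by ring
      _ ≤ 16 * k ^ 3 := mul_le_mul_of_nonneg_right hc4 (by positivity))
  rw [int_Wd_six hc'] at b2
  have hh := hv.hardy_int.2
  have h6 := (hS _ _ _ hv).2
  exact bookkeeping _ _ _ S σ _ _ _ _ _ hV0 hc1 hS0 hσ0 hσ1 hk2 h6 hh
    (hst.trans (add_le_add b1 b2))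

theorem no_solution (hu : H10 Ω u G) (hW : WeakTest Ω u G)
    (hΩ : ∀ t : ℝ, 1 ≤ t → ∀ x, t • x ∈ Ω → x ∈ Ω) (hΩb : Ω ⊆ Metric.closedBall 0 2)
    (hpos : ∀ᵐ x ∂(volume : Measure E), 0 ≤ u x) (h5 : 0 < ∫ x, u x ^ 5) : False := by
  obtain ⟨S, hS0, hS⟩ := sobolev_int
  obtain ⟨σ, hσ⟩ : ∃ σ : ℝ, σ = 1 / (16 * (S + 1)) := ⟨_, rfl⟩
  have hσ0 : 0 < σ := by rw [hσ]; positivity
  have hσ1 : σ ^ 2 * S ≤ 1 / 256 := by
    rw [hσ, div_pow, div_mul_eq_mul_div, div_le_div_iff₀ (by positivity) (by norm_num)]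
    nlinarith
  have nu := hu.nice
  obtain ⟨k, hk1, hk2⟩ := Bd_small nu (δ := σ / 256) (by positivity)
  have hA0 : 0 ≤ ∫ x, ‖G x‖ ^ 2 := by positivity
  have hI20 : 0 ≤ ∫ x, u x ^ 2 := integral_nonneg fun x => by positivity
  have hk0 : 0 < k := by linarith
  obtain ⟨R, hR⟩ : ∃ R : ℝ, R = 72 * (∫ x, ‖G x‖ ^ 2) + 2 * (∫ x, u x ^ 2) := ⟨_, rfl⟩
  have hR0 : 0 ≤ R := by rw [hR]; positivity
  obtain ⟨I5, hI5⟩ : ∃ I5 : ℝ, I5 = ∫ x, u x ^ 5 := ⟨_, rfl⟩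
  rw [← hI5] at h5
  obtain ⟨Q, hQ⟩ : ∃ Q : ℝ, Q = 1 + 17 * k ^ 3 * R := ⟨_, rfl⟩
  have hQ0 : 0 < Q := by rw [hQ]; positivity
  have main : ∀ c : ℝ, 1 < c → c ≤ 2 → 1 / 5 * (1 - c⁻¹) * I5 ≤ Q * (c - 1) ^ 2 := by
    intro c hc hc2
    have h1 := main_ineq hS0 hS hu hW hΩ hpos hσ0 hσ1 hk1 hk2 hc hc2
    have h2 := int_v_sq hu hΩb hΩ hc.le hc2
    rw [← hR] at h2
    rw [← hI5] at h1
    have h3 := mul_le_mul_of_nonneg_left h2 (by positivity : 0 ≤ 17 * k ^ 3)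
    rw [hQ]
    linarith
  -- let `c → 1`
  obtain ⟨e, he⟩ : ∃ e : ℝ, e = min 1 (I5 / (20 * Q)) := ⟨_, rfl⟩
  have he0 : 0 < e := by
    rw [he]
    apply lt_min one_pos
    positivity
  have he1 : e ≤ 1 := by rw [he]; exact min_le_left _ _
  have he2 : e ≤ I5 / (20 * Q) := by rw [he]; exact min_le_right _ _
  have h := main (1 + e) (by linarith) (by linarith)
  have h1 : e / 2 ≤ 1 - (1 + e)⁻¹ := by
    have : (1 + e)⁻¹ ≤ 1 - e / 2 := by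
      rw [inv_le_iff_one_le_mul₀ (by linarith)]
      nlinarith
    linarith
  have h2 : 1 / 5 * (e / 2) * I5 ≤ 1 / 5 * (1 - (1 + e)⁻¹) * I5 := by
    apply mul_le_mul_of_nonneg_right _ h5.le
    linarith
  have h3 : (1 + e - 1) = e := by ring
  rw [h3] at h
  have h4 : e * (Q * e) ≤ e * (I5 / 20) := by
    apply mul_le_mul_of_nonneg_left _ he0.le
    rw [le_div_iff₀ (by positivity)] at he2
    linarith
  have h6 : 0 < e * I5 := by positivity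
  nlinarith

end Run7.h198.LL
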