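import Pool.Agent.H5R2.NL.Cut

/-! Inequalities for compactly supported smooth functions on `ℝ³`. -/

set_option autoImplicit false

namespace Run7.h198.LL

open MeasureTheory Filter Topology
open scoped ENNReal NNReal

abbrev E : Type := EuclideanSpace ℝ (Fin 3)

lemma finrank_E : Module.finrank ℝ E = 3 := by simp [E]

lemma norm_gradient (φ : E → ℝ) (x : E) : ‖gradient φ x‖ = ‖fderiv ℝ φ x‖ := by
  unfold gradient
  exact LinearIsometryEquiv.norm_map _ _

lemma eLpNorm_gradient (φ : E → ℝ) (p : ℝ≥0∞) :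
    eLpNorm (gradient φ) p (volume : Measure E) = eLpNorm (fderiv ℝ φ) p volume :=
  eLpNorm_congr_norm_ae (Eventually.of_forall fun x => norm_gradient φ x)

theorem sobolev_test : ∃ C : ℝ≥0, ∀ φ : E → ℝ, ContDiff ℝ 1 φ → HasCompactSupport φ →
    eLpNorm φ 6 (volume : Measure E) ≤ C * eLpNorm (gradient φ) 2 volume := by
  refine ⟨eLpNormLESNormFDerivOfEqInnerConst (volume : Measure E) 2, fun φ hφ hc => ?_⟩
  rw [eLpNorm_gradient]
  have h := eLpNorm_le_eLpNorm_fderiv_of_eq_inner (volume : Measure E) hφ hc (p := 2) (p' := 6)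
    (by norm_num) (by rw [finrank_E]; norm_num) (by rw [finrank_E]; norm_num)
  exact h

/-- squares of `L²` norms -/
lemma eLpNorm_nat_pow {F : Type*} [NormedAddCommGroup F] (f : E → F) (n : ℕ) (hn : n ≠ 0) :
    (eLpNorm f n (volume : Measure E)) ^ n = ∫⁻ x, ‖f x‖ₑ ^ n := by
  rw [eLpNorm_eq_lintegral_rpow_enorm_toReal (by exact_mod_cast hn) (by simp)]
  simp only [ENNReal.toReal_natCast, ENNReal.rpow_natCast]
  rw [← ENNReal.rpow_natCast, ← ENNReal.rpow_mul]
  have : (1 / (n : ℝ)) * (n : ℝ) = 1 := by field_simp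
  rw [this, ENNReal.rpow_one]

lemma eLpNorm_two_sq {F : Type*} [NormedAddCommGroup F] (f : E → F) :
    (eLpNorm f 2 (volume : Measure E)) ^ 2 = ∫⁻ x, ‖f x‖ₑ ^ 2 := by
  have := eLpNorm_nat_pow f 2 (by norm_num)
  exact_mod_cast this

lemma enorm_sq_eq {F : Type*} [NormedAddCommGroup F] (a : F) (n : ℕ) :
    ‖a‖ₑ ^ n = ENNReal.ofReal (‖a‖ ^ n) := by
  rw [ENNReal.ofReal_pow (norm_nonneg _), ofReal_norm]

lemma le_of_sq_le {a b : ℝ≥0∞} (h : a ^ 2 ≤ b ^ 2) : a ≤ b := by
  exact (ENNReal.pow_le_pow_left_iff two_ne_zero).1 h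

theorem hardy_test (φ : E → ℝ) (hφ : ContDiff ℝ 1 φ) (hc : HasCompactSupport φ) :
    eLpNorm (fun x => φ x * ‖x‖⁻¹) 2 (volume : Measure E) ≤
      2 * eLpNorm (gradient φ) 2 volume := by
  have hu : ContDiff ℝ 1 (fun x => (φ x : ℂ)) := Complex.ofRealCLM.contDiff.comp hφ
  have huc : HasCompactSupport (fun x => (φ x : ℂ)) :=
    hc.comp_left (g := fun t : ℝ => (t : ℂ)) (by simp)
  obtain ⟨h1, h2⟩ := Pool.Agent.H5R2.NL.hardy (0 : E) (fun x => (φ x : ℂ)) hu huc
  have hg : ∀ x, Pool.Agent.H5R2.NL.gsq (fun x => (φ x : ℂ)) x = ‖gradient φ x‖ ^ 2 := by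
    intro x
    unfold Pool.Agent.H5R2.NL.gsq
    have hd : HasFDerivAt (fun x => (φ x : ℂ)) (Complex.ofRealCLM.comp (fderiv ℝ φ x)) x :=
      Complex.ofRealCLM.hasFDerivAt.comp x (hφ.differentiable (by norm_num) x).hasFDerivAt
    rw [hd.fderiv, EuclideanSpace.norm_sq_eq]
    apply Finset.sum_congr rfl
    intro c _
    have h3 : (gradient φ x) c = fderiv ℝ φ x (EuclideanSpace.single c (1 : ℝ)) := by
      have : inner ℝ (gradient φ x) (EuclideanSpace.single c (1 : ℝ)) =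
          fderiv ℝ φ x (EuclideanSpace.single c (1 : ℝ)) := by
        unfold gradient
        rw [InnerProductSpace.toDual_symm_apply]
      rw [← this, EuclideanSpace.inner_single_right]
      simp
    rw [h3]
    simp
  apply le_of_sq_le
  rw [mul_pow, eLpNorm_two_sq, eLpNorm_two_sq]
  have hgi : Integrable (fun x => ‖gradient φ x‖ ^ 2) := by
    have : (fun x => ‖gradient φ x‖ ^ 2) = fun x => ‖fderiv ℝ φ x‖ ^ 2 := by
      funext x; rw [norm_gradient]
    rw [this]
    have hcf : Continuous (fderiv ℝ φ) := hφ.continuous_fderiv (by norm_num)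
    have hcs : HasCompactSupport (fun x => ‖fderiv ℝ φ x‖ ^ 2) :=
      (hc.fderiv ℝ).comp_left (g := fun A : E →L[ℝ] ℝ => ‖A‖ ^ 2) (by simp)
    exact (hcf.norm.pow 2).integrable_of_hasCompactSupport hcs
  simp_rw [enorm_sq_eq]
  rw [← ofReal_integral_eq_lintegral_ofReal hgi (Eventually.of_forall fun x => by positivity)]
  have he : (fun x => ‖φ x * ‖x‖⁻¹‖ ^ 2) = fun x : E => ‖(φ x : ℂ)‖ ^ 2 / ‖x - 0‖ ^ 2 := by
    funext x
    rw [norm_mul, norm_inv, norm_norm, sub_zero, Complex.norm_real]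
    rw [mul_pow, inv_pow, div_eq_mul_inv]
  have hi : Integrable (fun x : E => ‖φ x * ‖x‖⁻¹‖ ^ 2) := by rw [he]; exact h1
  rw [← ofReal_integral_eq_lintegral_ofReal hi (Eventually.of_forall fun x => by positivity)]
  have h4 : (2 : ℝ≥0∞) ^ 2 = ENNReal.ofReal 4 := by
    rw [show (4 : ℝ) = 2 ^ 2 by norm_num, ENNReal.ofReal_pow (by norm_num)]
    norm_num
  rw [h4, ← ENNReal.ofReal_mul (by norm_num)]
  apply ENNReal.ofReal_le_ofReal
  rw [he]
  refine h2.trans (le_of_eq ?_)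
  simp_rw [hg]

/-- dilations and Lebesgue integrals -/
lemma lintegral_dil (g : E → ℝ≥0∞) (hg : Measurable g) {t : ℝ} (ht : t ≠ 0) :
    ∫⁻ x, g (t • x) = ENNReal.ofReal |(t ^ 3)⁻¹| * ∫⁻ x, g x := by
  have h1 : ∫⁻ x, g (t • x) = ∫⁻ y, g y ∂(Measure.map (fun x : E => t • x) volume) := by
    rw [lintegral_map hg (measurable_const_smul t)]
  have h2 := Measure.map_addHaar_smul (volume : Measure E) ht
  have h3 : (fun x : E => t • x) = (t • · : E → E) := rfl
  rw [h1, h3, h2, lintegral_smul_measure, finrank_E]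
  rfl

lemma sq_integral_le {g : ℝ → ℝ} (hg : Continuous g) {a b : ℝ} (hab : a ≤ b) :
    (∫ t in a..b, g t) ^ 2 ≤ (b - a) * ∫ t in a..b, g t ^ 2 := by
  rcases eq_or_lt_of_le hab with rfl | hlt
  · simp
  · set m := (∫ t in a..b, g t) / (b - a) with hm
    have hpos : 0 < b - a := sub_pos.2 hlt
    have h1 : 0 ≤ ∫ t in a..b, (g t - m) ^ 2 :=
      intervalIntegral.integral_nonneg hab (fun t _ => sq_nonneg _)
    have i1 : IntervalIntegrable (fun t => g t ^ 2) volume a b := (hg.pow 2).intervalIntegrable _ _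
    have i2 : IntervalIntegrable (fun t => 2 * m * g t) volume a b :=
      (continuous_const.mul hg).intervalIntegrable _ _
    have i3 : IntervalIntegrable (fun _ : ℝ => m ^ 2) volume a b :=
      continuous_const.intervalIntegrable _ _
    have h2 : ∫ t in a..b, (g t - m) ^ 2 =
        (∫ t in a..b, g t ^ 2) - 2 * m * (∫ t in a..b, g t) + (b - a) * m ^ 2 := by
      have : ∀ t, (g t - m) ^ 2 = g t ^ 2 - 2 * m * g t + m ^ 2 := fun t => by ring
      simp_rw [this]
      rw [intervalIntegral.integral_add (i1.sub i2) i3, intervalIntegral.integral_sub i1 i2,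
        intervalIntegral.integral_const_mul, intervalIntegral.integral_const, smul_eq_mul]
    rw [h2] at h1
    have h3 : (∫ t in a..b, g t) = m * (b - a) := by rw [hm]; field_simp
    rw [h3] at h1 ⊢
    nlinarith

theorem dil_test (φ : E → ℝ) (hφ : ContDiff ℝ 1 φ)
    (hs : tsupport φ ⊆ Metric.closedBall 0 2) {lam : ℝ} (hl : 1 ≤ lam) :
    eLpNorm (fun x => φ (lam • x) - φ x) 2 (volume : Measure E) ≤
      ENNReal.ofReal (2 * (lam - 1)) * eLpNorm (gradient φ) 2 volume := by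
  have hcf : Continuous (fderiv ℝ φ) := hφ.continuous_fderiv (by norm_num)
  have hd : Differentiable ℝ φ := hφ.differentiable (by norm_num)
  have hl0 : 0 ≤ lam - 1 := by linarith
  -- pointwise bound
  have hpt : ∀ x : E, ‖φ (lam • x) - φ x‖ ^ 2 ≤
      4 * (lam - 1) * ∫ t in (1 : ℝ)..lam, ‖fderiv ℝ φ (t • x)‖ ^ 2 := by
    intro x
    have hder : ∀ t : ℝ, HasDerivAt (fun t : ℝ => φ (t • x)) (fderiv ℝ φ (t • x) x) t := by
      intro t
      have h1 : HasDerivAt (fun t : ℝ => t • x) x t := by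
        simpa using (hasDerivAt_id t).smul_const x
      exact (hd (t • x)).hasFDerivAt.comp_hasDerivAt t h1
    have hcont : Continuous (fun t : ℝ => fderiv ℝ φ (t • x) x) :=
      (hcf.comp (continuous_id.smul continuous_const)).clm_apply continuous_const
    have hftc : ∫ t in (1 : ℝ)..lam, fderiv ℝ φ (t • x) x = φ (lam • x) - φ x := by
      rw [intervalIntegral.integral_eq_sub_of_hasDerivAt (fun t _ => hder t)
        (hcont.intervalIntegrable _ _), one_smul]
    rw [← hftc, Real.norm_eq_abs, sq_abs]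
    refine (sq_integral_le hcont hl).trans ?_
    have hc2 : Continuous (fun t : ℝ => ‖fderiv ℝ φ (t • x)‖ ^ 2) :=
      ((hcf.comp (continuous_id.smul continuous_const)).norm.pow 2)
    have hmono : ∫ t in (1 : ℝ)..lam, (fderiv ℝ φ (t • x) x) ^ 2 ≤
        ∫ t in (1 : ℝ)..lam, 4 * ‖fderiv ℝ φ (t • x)‖ ^ 2 := by
      apply intervalIntegral.integral_mono_on hl ((hcont.pow 2).intervalIntegrable _ _)
        ((continuous_const.mul hc2).intervalIntegrable _ _)
      intro t ht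
      show (fderiv ℝ φ (t • x) x) ^ 2 ≤ 4 * ‖fderiv ℝ φ (t • x)‖ ^ 2
      by_cases h0 : fderiv ℝ φ (t • x) = 0
      · rw [h0]; simp
      · have hmem : t • x ∈ tsupport φ := by
          have : t • x ∈ tsupport (fderiv ℝ φ) := subset_tsupport _ h0
          exact tsupport_fderiv_subset ℝ this
        have h1 := hs hmem
        rw [mem_closedBall_zero_iff, norm_smul, Real.norm_eq_abs, abs_of_pos (by linarith [ht.1])]
          at h1
        have hx2 : ‖x‖ ≤ 2 := by
          have := norm_nonneg x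
          nlinarith [ht.1]
        have h2 : |fderiv ℝ φ (t • x) x| ≤ ‖fderiv ℝ φ (t • x)‖ * ‖x‖ := by
          rw [← Real.norm_eq_abs]
          exact ContinuousLinearMap.le_opNorm _ _
        have h3 : |fderiv ℝ φ (t • x) x| ≤ ‖fderiv ℝ φ (t • x)‖ * 2 :=
          h2.trans (mul_le_mul_of_nonneg_left hx2 (norm_nonneg _))
        rw [← sq_abs]
        calc |fderiv ℝ φ (t • x) x| ^ 2 ≤ (‖fderiv ℝ φ (t • x)‖ * 2) ^ 2 :=
              pow_le_pow_left₀ (abs_nonneg _) h3 2
          _ = 4 * ‖fderiv ℝ φ (t • x)‖ ^ 2 := by ring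
    rw [intervalIntegral.integral_const_mul] at hmono
    calc (lam - 1) * ∫ t in (1 : ℝ)..lam, (fderiv ℝ φ (t • x) x) ^ 2
        ≤ (lam - 1) * (4 * ∫ t in (1 : ℝ)..lam, ‖fderiv ℝ φ (t • x)‖ ^ 2) :=
          mul_le_mul_of_nonneg_left hmono hl0
      _ = _ := by ring
  -- integrate
  have hG : Measurable (fun x : E => ‖fderiv ℝ φ x‖ₑ ^ 2) := by
    exact (hcf.measurable.enorm.pow_const 2)
  apply le_of_sq_le
  rw [mul_pow, eLpNorm_two_sq, eLpNorm_gradient, eLpNorm_two_sq]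
  calc ∫⁻ x : E, ‖φ (lam • x) - φ x‖ₑ ^ 2
      ≤ ∫⁻ x : E, ENNReal.ofReal (4 * (lam - 1)) *
          ∫⁻ t in Set.Ioc 1 lam, ‖fderiv ℝ φ (t • x)‖ₑ ^ 2 := by
        apply lintegral_mono
        intro x
        have hc2 : Continuous (fun t : ℝ => ‖fderiv ℝ φ (t • x)‖ ^ 2) :=
          ((hcf.comp (continuous_id.smul continuous_const)).norm.pow 2)
        have h1 : ∫⁻ t in Set.Ioc 1 lam, ‖fderiv ℝ φ (t • x)‖ₑ ^ 2 =
            ENNReal.ofReal (∫ t in (1 : ℝ)..lam, ‖fderiv ℝ φ (t • x)‖ ^ 2) := by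
          rw [intervalIntegral.integral_of_le hl, ofReal_integral_eq_lintegral_ofReal]
          · simp_rw [enorm_sq_eq]
          · exact (hc2.integrableOn_Icc).mono_set Set.Ioc_subset_Icc_self
          · exact Eventually.of_forall fun t => by positivity
        show ‖φ (lam • x) - φ x‖ₑ ^ 2 ≤ ENNReal.ofReal (4 * (lam - 1)) *
          ∫⁻ t in Set.Ioc 1 lam, ‖fderiv ℝ φ (t • x)‖ₑ ^ 2
        rw [h1, enorm_sq_eq, ← ENNReal.ofReal_mul (by positivity)]
        exact ENNReal.ofReal_le_ofReal (hpt x)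
    _ = ENNReal.ofReal (4 * (lam - 1)) *
          ∫⁻ x : E, ∫⁻ t in Set.Ioc 1 lam, ‖fderiv ℝ φ (t • x)‖ₑ ^ 2 := by
        rw [lintegral_const_mul']
        exact ENNReal.ofReal_ne_top
    _ = ENNReal.ofReal (4 * (lam - 1)) *
          ∫⁻ t in Set.Ioc 1 lam, ∫⁻ x : E, ‖fderiv ℝ φ (t • x)‖ₑ ^ 2 := by
        rw [lintegral_lintegral_swap]
        apply Measurable.aemeasurable
        have : Continuous (fun q : E × ℝ => fderiv ℝ φ (q.2 • q.1)) :=
          hcf.comp (continuous_snd.smul continuous_fst)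
        exact this.measurable.enorm.pow_const 2
    _ ≤ ENNReal.ofReal (4 * (lam - 1)) *
          ∫⁻ _t in Set.Ioc 1 lam, ∫⁻ x : E, ‖fderiv ℝ φ x‖ₑ ^ 2 := by
        refine mul_le_mul_right ?_ _
        apply setLIntegral_mono' measurableSet_Ioc
        intro t ht
        rw [lintegral_dil (fun x => ‖fderiv ℝ φ x‖ₑ ^ 2) hG (by linarith [ht.1])]
        calc ENNReal.ofReal |(t ^ 3)⁻¹| * ∫⁻ x : E, ‖fderiv ℝ φ x‖ₑ ^ 2
            ≤ 1 * ∫⁻ x : E, ‖fderiv ℝ φ x‖ₑ ^ 2 := by
              gcongr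
              rw [← ENNReal.ofReal_one]
              apply ENNReal.ofReal_le_ofReal
              have : 1 ≤ t ^ 3 := one_le_pow₀ ht.1.le
              rw [abs_of_pos (by positivity)]
              exact inv_le_one_of_one_le₀ this
          _ = _ := one_mul _
    _ = ENNReal.ofReal (2 * (lam - 1)) ^ 2 * ∫⁻ x : E, ‖fderiv ℝ φ x‖ₑ ^ 2 := by
        rw [setLIntegral_const, Real.volume_Ioc, mul_comm (∫⁻ x : E, ‖fderiv ℝ φ x‖ₑ ^ 2),
          ← mul_assoc, ← ENNReal.ofReal_mul (by positivity), ← ENNReal.ofReal_pow (by positivity)]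
        congr 2
        ring

end Run7.h198.LL
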