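import Pool.Agent.Run7.h198.LL.Ints

/-! The weak equation, tested with `H¹₀` pairs. -/

set_option autoImplicit false

namespace Run7.h198.LL

open MeasureTheory Filter Topology
open scoped ENNReal NNReal

variable {Ω : Set E} {f g u v w : E → ℝ} {F G : E → E}

lemma integrable_inner' (hF : MemLp F 2 (volume : Measure E)) (hG : MemLp G 2 (volume : Measure E)) :
    Integrable (fun x => inner ℝ (F x) (G x)) (volume : Measure E) := by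
  have h1 := hF.integrable_norm_pow (by norm_num)
  have h2 := hG.integrable_norm_pow (by norm_num)
  refine (h1.add h2).mono' (hF.1.inner hG.1) (Eventually.of_forall fun x => ?_)
  have h3 := abs_real_inner_le_norm (F x) (G x)
  rw [Real.norm_eq_abs]
  show |inner ℝ (F x) (G x)| ≤ ‖F x‖ ^ 2 + ‖G x‖ ^ 2
  nlinarith [sq_nonneg (‖F x‖ - ‖G x‖), sq_nonneg ‖F x‖, sq_nonneg ‖G x‖]

lemma pow4_le (a b t : ℝ) (ht : 0 < t) : a ^ 4 * |b| ≤ t * a ^ 6 + t⁻¹ ^ 2 * (b ^ 2 + b ^ 6) := by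
  have hb : |b| ^ 3 ≤ b ^ 2 + b ^ 6 := by
    have h1 : b ^ 2 = |b| ^ 2 := (sq_abs b).symm
    have h2 : b ^ 6 = |b| ^ 6 := (Even.pow_abs (by decide) b).symm
    rw [h1, h2]
    have h0 := abs_nonneg b
    rcases le_total |b| 1 with h | h
    · have : |b| ^ 3 ≤ |b| ^ 2 := pow_le_pow_of_le_one h0 h (by norm_num)
      have : 0 ≤ |b| ^ 6 := by positivity
      linarith
    · have : |b| ^ 3 ≤ |b| ^ 6 := pow_le_pow_right₀ h (by norm_num)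
      have : 0 ≤ |b| ^ 2 := by positivity
      linarith
  have hti : 0 < t⁻¹ := inv_pos.2 ht
  rcases le_total |b| (t * a ^ 2) with h | h
  · have h1 : a ^ 4 * |b| ≤ a ^ 4 * (t * a ^ 2) := mul_le_mul_of_nonneg_left h (by positivity)
    have h2 : 0 ≤ t⁻¹ ^ 2 * (b ^ 2 + b ^ 6) := by positivity
    calc a ^ 4 * |b| ≤ a ^ 4 * (t * a ^ 2) := h1
      _ = t * a ^ 6 := by ring
      _ ≤ _ := by linarith
  · have h1 : a ^ 2 ≤ t⁻¹ * |b| := by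
      rw [le_inv_mul_iff₀ ht]; exact h
    have h2 : a ^ 4 ≤ t⁻¹ ^ 2 * |b| ^ 2 := by
      calc a ^ 4 = a ^ 2 * a ^ 2 := by ring
        _ ≤ (t⁻¹ * |b|) * (t⁻¹ * |b|) := mul_le_mul h1 h1 (sq_nonneg _) (by positivity)
        _ = _ := by ring
    have h3 : 0 ≤ t * a ^ 6 := by positivity
    calc a ^ 4 * |b| ≤ (t⁻¹ ^ 2 * |b| ^ 2) * |b| := mul_le_mul_of_nonneg_right h2 (abs_nonneg _)
      _ = t⁻¹ ^ 2 * |b| ^ 3 := by ring
      _ ≤ t⁻¹ ^ 2 * (b ^ 2 + b ^ 6) := mul_le_mul_of_nonneg_left hb (by positivity)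
      _ ≤ _ := by linarith

lemma Nice.int41 (hu : Nice u) (hf : Nice f) :
    Integrable (fun x => u x ^ 4 * f x) (volume : Measure E) := by
  refine ((hu.i6.const_mul 1).add ((hf.i2.add hf.i6).const_mul ((1 : ℝ)⁻¹ ^ 2))).mono'
    ((hu.aesm.pow 4).mul hf.aesm) (Eventually.of_forall fun x => ?_)
  rw [Real.norm_eq_abs, abs_mul, abs_of_nonneg (by positivity : 0 ≤ u x ^ 4)]
  exact pow4_le (u x) (f x) 1 one_pos

lemma Nice.int31 (hu : Nice u) (hf : Nice f) :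
    Integrable (fun x => u x ^ 3 * f x * ‖x‖⁻¹) (volume : Measure E) := by
  refine (hu.i6.add hf.ih).mono'
    (((hu.aesm.pow 3).mul hf.aesm).mul (measurable_norm.inv).aestronglyMeasurable)
    (Eventually.of_forall fun x => ?_)
  rw [Real.norm_eq_abs, mul_assoc, abs_mul]
  show |u x ^ 3| * |f x * ‖x‖⁻¹| ≤ u x ^ 6 + (f x * ‖x‖⁻¹) ^ 2
  have h1 : u x ^ 6 = |u x ^ 3| ^ 2 := by rw [sq_abs]; ring
  have h2 : (f x * ‖x‖⁻¹) ^ 2 = |f x * ‖x‖⁻¹| ^ 2 := (sq_abs _).symm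
  rw [h1, h2]
  nlinarith [sq_nonneg (|u x ^ 3| - |f x * ‖x‖⁻¹|), sq_nonneg (|u x ^ 3|),
    sq_nonneg (|f x * ‖x‖⁻¹|)]

/-- the weak formulation for test functions -/
def WeakTest (Ω : Set E) (u : E → ℝ) (G : E → E) : Prop :=
  ∀ ψ, TF Ω ψ → (∫ x, inner ℝ (G x) (gradient ψ x)) + (∫ x, u x ^ 4 * ψ x)
    - (∫ x, u x ^ 3 * ψ x * ‖x‖⁻¹) = 0

/-- the functional -/
noncomputable def Fn (u : E → ℝ) (G : E → E) (f : E → ℝ) (F : E → E) : ℝ :=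
  (∫ x, inner ℝ (G x) (F x)) + (∫ x, u x ^ 4 * f x) - (∫ x, u x ^ 3 * f x * ‖x‖⁻¹)

lemma Fn_bound {S : ℝ} (hS : ∀ (Ω : Set E) (f : E → ℝ) (F : E → E), H10 Ω f F →
      Integrable (fun x => f x ^ 6) (volume : Measure E) ∧
      ∫ x, f x ^ 6 ≤ S * (∫ x, ‖F x‖ ^ 2) ^ 3)
    (hu : H10 Ω u G) (hf : H10 Ω f F) {t : ℝ} (ht : 0 < t) :
    |Fn u G f F| ≤ t * ((∫ x, ‖G x‖ ^ 2) + 2 * ∫ x, u x ^ 6) +
      (t⁻¹ * (∫ x, ‖F x‖ ^ 2) + t⁻¹ ^ 2 * ((∫ x, f x ^ 2) + S * (∫ x, ‖F x‖ ^ 2) ^ 3)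
        + t⁻¹ * (4 * ∫ x, ‖F x‖ ^ 2)) := by
  have hti : 0 < t⁻¹ := inv_pos.2 ht
  have iG := hu.memF.integrable_norm_pow (by norm_num)
  have iF := hf.memF.integrable_norm_pow (by norm_num)
  have nu := hu.nice
  have nf := hf.nice
  have b1 : |∫ x, inner ℝ (G x) (F x)| ≤ t * (∫ x, ‖G x‖ ^ 2) + t⁻¹ * ∫ x, ‖F x‖ ^ 2 := by
    rw [← integral_const_mul, ← integral_const_mul, ← integral_add (iG.const_mul t)
      (iF.const_mul t⁻¹)]
    refine (abs_integral_le_integral_abs).trans (integral_mono_of_nonneg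
      (Eventually.of_forall fun x => abs_nonneg _) ((iG.const_mul t).add (iF.const_mul t⁻¹))
      (Eventually.of_forall fun x => ?_))
    have h3 := abs_real_inner_le_norm (G x) (F x)
    show |inner ℝ (G x) (F x)| ≤ t * ‖G x‖ ^ 2 + t⁻¹ * ‖F x‖ ^ 2
    have h4 : 2 * (‖G x‖ * ‖F x‖) ≤ t * ‖G x‖ ^ 2 + t⁻¹ * ‖F x‖ ^ 2 := by
      have h5 : 0 ≤ t⁻¹ * (t * ‖G x‖ - ‖F x‖) ^ 2 := by positivity
      have h6 : t⁻¹ * (t * ‖G x‖ - ‖F x‖) ^ 2 =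
          t * ‖G x‖ ^ 2 - 2 * (‖G x‖ * ‖F x‖) + t⁻¹ * ‖F x‖ ^ 2 := by
        field_simp
        ring
      linarith
    have h7 : 0 ≤ ‖G x‖ * ‖F x‖ := by positivity
    linarith
  have b2 : |∫ x, u x ^ 4 * f x| ≤ t * (∫ x, u x ^ 6) +
      t⁻¹ ^ 2 * ((∫ x, f x ^ 2) + ∫ x, f x ^ 6) := by
    have i1 := nu.i6.const_mul t
    have i2 : Integrable (fun x => t⁻¹ ^ 2 * (f x ^ 2 + f x ^ 6)) (volume : Measure E) :=
      (nf.i2.add nf.i6).const_mul (t⁻¹ ^ 2)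
    have e : t * (∫ x, u x ^ 6) + t⁻¹ ^ 2 * ((∫ x, f x ^ 2) + ∫ x, f x ^ 6) =
        ∫ x, (t * u x ^ 6 + t⁻¹ ^ 2 * (f x ^ 2 + f x ^ 6)) := by
      rw [integral_add i1 i2, integral_const_mul, integral_const_mul, integral_add nf.i2 nf.i6]
    rw [e]
    refine (abs_integral_le_integral_abs).trans (integral_mono_of_nonneg
      (Eventually.of_forall fun x => abs_nonneg _) (i1.add i2)
      (Eventually.of_forall fun x => ?_))
    show |u x ^ 4 * f x| ≤ t * u x ^ 6 + t⁻¹ ^ 2 * (f x ^ 2 + f x ^ 6)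
    rw [abs_mul, abs_of_nonneg (by positivity : 0 ≤ u x ^ 4)]
    exact pow4_le (u x) (f x) t ht
  have b3 : |∫ x, u x ^ 3 * f x * ‖x‖⁻¹| ≤ t * (∫ x, u x ^ 6) +
      t⁻¹ * ∫ x, (f x * ‖x‖⁻¹) ^ 2 := by
    have i1 := nu.i6.const_mul t
    have i2 := nf.ih.const_mul t⁻¹
    have e : t * (∫ x, u x ^ 6) + t⁻¹ * ∫ x, (f x * ‖x‖⁻¹) ^ 2 =
        ∫ x, (t * u x ^ 6 + t⁻¹ * (f x * ‖x‖⁻¹) ^ 2) := by
      rw [integral_add i1 i2, integral_const_mul, integral_const_mul]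
    rw [e]
    refine (abs_integral_le_integral_abs).trans (integral_mono_of_nonneg
      (Eventually.of_forall fun x => abs_nonneg _) (i1.add i2)
      (Eventually.of_forall fun x => ?_))
    show |u x ^ 3 * f x * ‖x‖⁻¹| ≤ t * u x ^ 6 + t⁻¹ * (f x * ‖x‖⁻¹) ^ 2
    rw [mul_assoc, abs_mul]
    have h1 : u x ^ 6 = |u x ^ 3| ^ 2 := by rw [sq_abs]; ring
    have h2 : (f x * ‖x‖⁻¹) ^ 2 = |f x * ‖x‖⁻¹| ^ 2 := (sq_abs _).symm
    rw [h1, h2]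
    have h5 : 0 ≤ t⁻¹ * (t * |u x ^ 3| - |f x * ‖x‖⁻¹|) ^ 2 := by positivity
    have h6 : t⁻¹ * (t * |u x ^ 3| - |f x * ‖x‖⁻¹|) ^ 2 =
        t * |u x ^ 3| ^ 2 - 2 * (|u x ^ 3| * |f x * ‖x‖⁻¹|) + t⁻¹ * |f x * ‖x‖⁻¹| ^ 2 := by
      field_simp
      ring
    have h7 : 0 ≤ |u x ^ 3| * |f x * ‖x‖⁻¹| := by positivity
    linarith
  have hh := hf.hardy_int.2
  have hs := (hS Ω f F hf).2
  have b2' : t⁻¹ ^ 2 * ((∫ x, f x ^ 2) + ∫ x, f x ^ 6) ≤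
      t⁻¹ ^ 2 * ((∫ x, f x ^ 2) + S * (∫ x, ‖F x‖ ^ 2) ^ 3) := by
    apply mul_le_mul_of_nonneg_left _ (by positivity)
    linarith
  have b3' : t⁻¹ * ∫ x, (f x * ‖x‖⁻¹) ^ 2 ≤ t⁻¹ * (4 * ∫ x, ‖F x‖ ^ 2) :=
    mul_le_mul_of_nonneg_left hh hti.le
  unfold Fn
  rw [abs_le] at b1 b2 b3 ⊢
  constructor <;> linarith [b1.1, b1.2, b2.1, b2.2, b3.1, b3.2]

lemma tendsto_int_sq {F' : Type*} [NormedAddCommGroup F'] {a : ℕ → E → F'}
    (ha : ∀ n, MemLp (a n) 2 (volume : Measure E))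
    (h : Tendsto (fun n => eLpNorm (a n) 2 (volume : Measure E)) atTop (𝓝 0)) :
    Tendsto (fun n => ∫ x, ‖a n x‖ ^ 2) atTop (𝓝 0) := by
  have h1 : Tendsto (fun n => (eLpNorm (a n) 2 (volume : Measure E)) ^ 2) atTop (𝓝 (0 ^ 2)) :=
    ((ENNReal.continuous_pow 2).tendsto 0).comp h
  have h2 : (fun n => (eLpNorm (a n) 2 (volume : Measure E)) ^ 2) =
      fun n => ENNReal.ofReal (∫ x, ‖a n x‖ ^ 2) := by
    funext n; exact eLpNorm_two_sq_real (ha n)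
  rw [h2] at h1
  have h3 := (ENNReal.tendsto_toReal (by simp : ((0 : ℝ≥0∞) ^ 2) ≠ ∞)).comp h1
  simp only [ne_eq, OfNat.ofNat_ne_zero, not_false_eq_true, zero_pow, ENNReal.toReal_zero] at h3
  refine h3.congr (fun n => ?_)
  simp only [Function.comp_apply]
  exact ENNReal.toReal_ofReal (by positivity)

theorem WeakTest.extend (hW : WeakTest Ω u G) (hu : H10 Ω u G) (hf : H10 Ω f F) :
    Fn u G f F = 0 := by
  obtain ⟨S, hS0, hS⟩ := sobolev_int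
  obtain ⟨φ, hφ, a1, a2⟩ := hf.approx
  have hE : ∀ n, H10 Ω (fun x => φ n x - f x) (fun x => gradient (φ n) x - F x) :=
    fun n => (H10.of_test (hφ n)).sub hf
  have nu := hu.nice
  have nf := hf.nice
  have hlin : ∀ n, Fn u G f F =
      - Fn u G (fun x => φ n x - f x) (fun x => gradient (φ n) x - F x) := by
    intro n
    have hw := hW (φ n) (hφ n)
    have np := (H10.of_test (hφ n)).nice
    have hg := (hφ n).memLp_gradient 2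
    unfold Fn
    have e1 : ∫ x, inner ℝ (G x) (gradient (φ n) x - F x) =
        (∫ x, inner ℝ (G x) (gradient (φ n) x)) - ∫ x, inner ℝ (G x) (F x) := by
      rw [← integral_sub (integrable_inner' hu.memF hg) (integrable_inner' hu.memF hf.memF)]
      congr 1; funext x; rw [inner_sub_right]
    have e2 : ∫ x, u x ^ 4 * (φ n x - f x) =
        (∫ x, u x ^ 4 * φ n x) - ∫ x, u x ^ 4 * f x := by
      rw [← integral_sub (nu.int41 np) (nu.int41 nf)]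
      congr 1; funext x; ring
    have e3 : ∫ x, u x ^ 3 * (φ n x - f x) * ‖x‖⁻¹ =
        (∫ x, u x ^ 3 * φ n x * ‖x‖⁻¹) - ∫ x, u x ^ 3 * f x * ‖x‖⁻¹ := by
      rw [← integral_sub (nu.int31 np) (nu.int31 nf)]
      congr 1; funext x; ring
    rw [e1, e2, e3]
    linarith
  have c1 : Tendsto (fun n => ∫ x, (φ n x - f x) ^ 2) atTop (𝓝 0) := by
    have := tendsto_int_sq (a := fun n x => φ n x - f x) (fun n => (hE n).memf) a1
    simpa [sq_abs] using this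
  have c2 : Tendsto (fun n => ∫ x, ‖gradient (φ n) x - F x‖ ^ 2) atTop (𝓝 0) :=
    tendsto_int_sq (a := fun n x => gradient (φ n) x - F x) (fun n => (hE n).memF) a2
  have key : ∀ t : ℝ, 0 < t → |Fn u G f F| ≤ t * ((∫ x, ‖G x‖ ^ 2) + 2 * ∫ x, u x ^ 6) := by
    intro t ht
    have hlim : Tendsto (fun n => t * ((∫ x, ‖G x‖ ^ 2) + 2 * ∫ x, u x ^ 6) +
      (t⁻¹ * (∫ x, ‖gradient (φ n) x - F x‖ ^ 2) +
        t⁻¹ ^ 2 * ((∫ x, (φ n x - f x) ^ 2) + S * (∫ x, ‖gradient (φ n) x - F x‖ ^ 2) ^ 3)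
        + t⁻¹ * (4 * ∫ x, ‖gradient (φ n) x - F x‖ ^ 2))) atTop
        (𝓝 (t * ((∫ x, ‖G x‖ ^ 2) + 2 * ∫ x, u x ^ 6) +
          (t⁻¹ * 0 + t⁻¹ ^ 2 * (0 + S * 0 ^ 3) + t⁻¹ * (4 * 0)))) := by
      apply Tendsto.add tendsto_const_nhds
      apply Tendsto.add
      · apply Tendsto.add (c2.const_mul _)
        exact (c1.add ((c2.pow 3).const_mul S)).const_mul _
      · exact (c2.const_mul 4).const_mul _
    have h0 : t * ((∫ x, ‖G x‖ ^ 2) + 2 * ∫ x, u x ^ 6) +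
          (t⁻¹ * 0 + t⁻¹ ^ 2 * (0 + S * 0 ^ 3) + t⁻¹ * (4 * 0)) =
          t * ((∫ x, ‖G x‖ ^ 2) + 2 * ∫ x, u x ^ 6) := by ring
    rw [h0] at hlim
    refine ge_of_tendsto' hlim (fun n => ?_)
    rw [hlin n, abs_neg]
    exact Fn_bound hS hu (hE n) ht
  have hA : 0 ≤ (∫ x, ‖G x‖ ^ 2) + 2 * ∫ x, u x ^ 6 := by
    have h1 : 0 ≤ ∫ x, ‖G x‖ ^ 2 := by positivity
    have h2 : 0 ≤ ∫ x, u x ^ 6 := integral_nonneg fun x => by positivity
    linarith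
  have h0 : |Fn u G f F| ≤ 0 := by
    by_contra hne
    push Not at hne
    set A := (∫ x, ‖G x‖ ^ 2) + 2 * ∫ x, u x ^ 6 with hAdef
    have h1 := key (|Fn u G f F| / (2 * (A + 1))) (by positivity)
    have h2 : |Fn u G f F| / (2 * (A + 1)) * A ≤ |Fn u G f F| / 2 := by
      rw [div_mul_eq_mul_div, div_le_div_iff₀ (by positivity) (by norm_num)]
      nlinarith
    linarith
  exact abs_nonpos_iff.1 h0

end Run7.h198.LL
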